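import Pool.Agent.R204.OP.Defs

namespace Pool.Agent.R204.OP

/-! Acyclicity lemmas. -/

lemma reach_inv {V : Type*} {X : SimpleGraph V} {P : V → Prop}
    (hP : ∀ a b, P a → X.Adj a b → P b) {a b : V} (ha : P a) (h : X.Reachable a b) : P b := by
  obtain ⟨w⟩ := h
  induction w with
  | nil => exact ha
  | cons h' w ih => exact ih (hP _ _ ha h')

/-- acyclicity from a family of acyclic charts: each edge of `X` lies in (the image of) a chart
which is closed under adjacency. -/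
lemma acyclic_of_chart {V : Type*} {W : Type*} {X : SimpleGraph W} {G : SimpleGraph V} (e : V → W)
    (he : Function.Injective e) (hG : G.IsAcyclic)
    (h1 : ∀ a b, X.Adj (e a) (e b) → G.Adj a b)
    (h2 : ∀ a y, X.Adj (e a) y → ∃ b, y = e b) {a b : V} (hab : X.Adj (e a) (e b)) :
    X.IsBridge s(e a, e b) := by
  rw [SimpleGraph.isBridge_iff]
  intro hr
  have hG' := (SimpleGraph.isAcyclic_iff_forall_adj_isBridge.mp hG) (h1 _ _ hab)
  rw [SimpleGraph.isBridge_iff] at hG'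
  apply hG'
  have := reach_inv (P := fun y => ∃ c, y = e c ∧ (G.deleteEdges {s(a, b)}).Reachable a c) ?_
    ⟨a, rfl, SimpleGraph.Reachable.refl _⟩ hr
  · obtain ⟨c, hc, hr'⟩ := this
    have hbc := he hc
    subst hbc
    exact hr'
  · rintro x y ⟨c, rfl, hc⟩ hxy
    rw [SimpleGraph.deleteEdges_adj] at hxy
    obtain ⟨d, rfl⟩ := h2 _ _ hxy.1
    refine ⟨d, rfl, hc.trans (SimpleGraph.Adj.reachable ?_)⟩
    rw [SimpleGraph.deleteEdges_adj]
    refine ⟨h1 _ _ hxy.1, ?_⟩
    intro h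
    apply hxy.2
    simp only [Set.mem_singleton_iff, Sym2.eq_iff] at h ⊢
    rcases h with ⟨rfl, rfl⟩ | ⟨rfl, rfl⟩
    · left; exact ⟨rfl, rfl⟩
    · right; exact ⟨rfl, rfl⟩

lemma acyclic_sum {V W : Type*} {X : SimpleGraph (V ⊕ W)} {G : SimpleGraph V} {H : SimpleGraph W}
    (hG : G.IsAcyclic) (hH : H.IsAcyclic)
    (h1 : ∀ a b, X.Adj (Sum.inl a) (Sum.inl b) → G.Adj a b)
    (h2 : ∀ a b, X.Adj (Sum.inr a) (Sum.inr b) → H.Adj a b)
    (h3 : ∀ a b, ¬ X.Adj (Sum.inl a) (Sum.inr b)) : X.IsAcyclic := by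
  rw [SimpleGraph.isAcyclic_iff_forall_adj_isBridge]
  have hc1 : ∀ a y, X.Adj (Sum.inl a) y → ∃ b, y = Sum.inl b := by
    rintro a (b | b) h
    · exact ⟨b, rfl⟩
    · exact absurd h (h3 _ _)
  have hc2 : ∀ a y, X.Adj (Sum.inr a) y → ∃ b, y = Sum.inr b := by
    rintro a (b | b) h
    · exact absurd h.symm (h3 _ _)
    · exact ⟨b, rfl⟩
  rintro (v | v) (w | w) h
  · exact acyclic_of_chart Sum.inl Sum.inl_injective hG h1 hc1 h
  · exact absurd h (h3 _ _)
  · exact absurd h.symm (h3 _ _)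
  · exact acyclic_of_chart Sum.inr Sum.inr_injective hH h2 hc2 h

lemma acyclic_lift {V W : Type*} {X : SimpleGraph W} {G : SimpleGraph V} (e : V → W)
    (he : Function.Injective e) (hG : G.IsAcyclic)
    (h : ∀ x y, X.Adj x y → ∃ a b, x = e a ∧ y = e b ∧ G.Adj a b) : X.IsAcyclic := by
  rw [SimpleGraph.isAcyclic_iff_forall_adj_isBridge]
  intro v w hvw
  obtain ⟨a, b, rfl, rfl, hab⟩ := h _ _ hvw
  apply acyclic_of_chart e he hG ?_ ?_ hvw
  · intro c d hcd
    obtain ⟨a', b', h1, h2, h3⟩ := h _ _ hcd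
    rw [he h1, he h2]; exact h3
  · intro c y hcy
    obtain ⟨a', b', h1, h2, h3⟩ := h _ _ hcy
    exact ⟨b', h2⟩

lemma leaf_acyclic {V : Type*} {X : SimpleGraph V} (T : Set V)
    (h1 : ∀ v ∈ T, ∀ a b, X.Adj v a → X.Adj v b → a = b)
    (h2 : ∀ v w, X.Adj v w → v ∈ T ∨ w ∈ T) : X.IsAcyclic := by
  rw [SimpleGraph.isAcyclic_iff_forall_adj_isBridge]
  have key : ∀ v w, X.Adj v w → v ∈ T → X.IsBridge s(v, w) := by
    intro v w hvw hv
    rw [SimpleGraph.isBridge_iff]
    intro hr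
    have := reach_inv (P := fun y => y = v) ?_ rfl hr
    · exact hvw.ne this.symm
    · rintro a b rfl hab
      rw [SimpleGraph.deleteEdges_adj] at hab
      exfalso
      apply hab.2
      rw [h1 _ hv _ _ hab.1 hvw]
      rfl
  intro v w hvw
  rcases h2 _ _ hvw with h | h
  · exact key _ _ hvw h
  · rw [Sym2.eq_swap]; exact key _ _ hvw.symm h

lemma acyclic_detour {V : Type*} {X : SimpleGraph V} (hX : X.IsAcyclic) {a b : V}
    (hab : X.Adj a b) (h : (X.deleteEdges {s(a, b)}).Reachable a b) : False := by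
  have := (SimpleGraph.isAcyclic_iff_forall_adj_isBridge.mp hX) hab
  rw [SimpleGraph.isBridge_iff] at this
  exact this h

lemma no_cyc4 {V : Type*} {X : SimpleGraph V} (hX : X.IsAcyclic) {a b c d : V}
    (hab : X.Adj a b) (hbc : X.Adj b c) (hcd : X.Adj c d) (hda : X.Adj d a)
    (hac : a ≠ c) (hbd : b ≠ d) : False := by
  apply acyclic_detour hX hab
  have hbc' := hbc.ne
  have hda' := hda.ne
  have e1 : (X.deleteEdges {s(a, b)}).Adj a d := by
    rw [SimpleGraph.deleteEdges_adj]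
    refine ⟨hda.symm, ?_⟩
    simp only [Set.mem_singleton_iff, Sym2.eq_iff]
    have := hab.ne
    grind
  have e2 : (X.deleteEdges {s(a, b)}).Adj d c := by
    rw [SimpleGraph.deleteEdges_adj]
    refine ⟨hcd.symm, ?_⟩
    simp only [Set.mem_singleton_iff, Sym2.eq_iff]
    have := hab.ne
    grind
  have e3 : (X.deleteEdges {s(a, b)}).Adj c b := by
    rw [SimpleGraph.deleteEdges_adj]
    refine ⟨hbc.symm, ?_⟩
    simp only [Set.mem_singleton_iff, Sym2.eq_iff]
    have := hab.ne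
    grind
  exact (e1.reachable.trans e2.reachable).trans e3.reachable

lemma no_cyc6 {V : Type*} {X : SimpleGraph V} (hX : X.IsAcyclic) {a b c d e f : V}
    (hab : X.Adj a b) (hbc : X.Adj b c) (hcd : X.Adj c d) (hde : X.Adj d e) (hef : X.Adj e f)
    (hfa : X.Adj f a)
    (hac : a ≠ c) (hbf : b ≠ f) (hae : a ≠ e) (hbd : b ≠ d) (had : a ≠ d) : False := by
  apply acyclic_detour hX hab
  have hne := hab.ne
  have hbc' := hbc.ne
  have hfa' := hfa.ne
  have e1 : (X.deleteEdges {s(a, b)}).Adj a f := by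
    rw [SimpleGraph.deleteEdges_adj]
    refine ⟨hfa.symm, ?_⟩
    simp only [Set.mem_singleton_iff, Sym2.eq_iff]
    grind
  have e2 : (X.deleteEdges {s(a, b)}).Adj f e := by
    rw [SimpleGraph.deleteEdges_adj]
    refine ⟨hef.symm, ?_⟩
    simp only [Set.mem_singleton_iff, Sym2.eq_iff]
    grind
  have e3 : (X.deleteEdges {s(a, b)}).Adj e d := by
    rw [SimpleGraph.deleteEdges_adj]
    refine ⟨hde.symm, ?_⟩
    simp only [Set.mem_singleton_iff, Sym2.eq_iff]
    grind
  have e4 : (X.deleteEdges {s(a, b)}).Adj d c := by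
    rw [SimpleGraph.deleteEdges_adj]
    refine ⟨hcd.symm, ?_⟩
    simp only [Set.mem_singleton_iff, Sym2.eq_iff]
    grind
  have e5 : (X.deleteEdges {s(a, b)}).Adj c b := by
    rw [SimpleGraph.deleteEdges_adj]
    refine ⟨hbc.symm, ?_⟩
    simp only [Set.mem_singleton_iff, Sym2.eq_iff]
    grind
  exact (((e1.reachable.trans e2.reachable).trans e3.reachable).trans e4.reachable).trans
    e5.reachable

/-! The tree of fans. -/

/-- `a` and `b` are children of `c`. -/
def Top (c a b : List ℤ) : Prop := ∃ n m, a = n :: c ∧ b = m :: c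

lemma U_tri {x y z : List ℤ} (h1 : U.Adj x y) (h2 : U.Adj x z) (h3 : U.Adj y z) :
    Top x y z ∨ Top y x z ∨ Top z x y := by
  unfold Top
  rcases h1 with ⟨n, rfl⟩ | ⟨n, rfl⟩ | ⟨w, n, rfl, rfl⟩ | ⟨w, n, rfl, rfl⟩ <;>
  rcases h2 with ⟨m, h2⟩ | ⟨m, h2⟩ | ⟨v, m, h2, h2'⟩ | ⟨v, m, h2, h2'⟩ <;>
  rcases h3 with ⟨k, h3⟩ | ⟨k, h3⟩ | ⟨u, k, h3, h3'⟩ | ⟨u, k, h3, h3'⟩ <;>
  have hl1 := congrArg List.length h2 <;>
  have hl2 := congrArg List.length h3 <;>
  grind

/-- gem lemma -/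
lemma U_gem {c r1 r2 r3 r4 : List ℤ} (h1 : U.Adj c r1) (h2 : U.Adj c r2) (h3 : U.Adj c r3)
    (h4 : U.Adj c r4) (h12 : U.Adj r1 r2) (h23 : U.Adj r2 r3) (h34 : U.Adj r3 r4)
    (n13 : r1 ≠ r3) (n24 : r2 ≠ r4) : ∃ n, r1 = n :: c := by
  have t1 := U_tri h1 h2 h12
  have t2 := U_tri h2 h3 h23
  have t3 := U_tri h3 h4 h34
  unfold Top at t1 t2 t3
  rcases t2 with ⟨n, m, e1, e2⟩ | ⟨n, m, e1, e2⟩ | ⟨n, m, e1, e2⟩
  · rcases t1 with ⟨n', m', e1', e2'⟩ | ⟨n', m', e1', e2'⟩ | ⟨n', m', e1', e2'⟩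
    · exact ⟨n', e1'⟩
    · have a1 := congrArg List.length e1
      have a2 := congrArg List.length e1'
      have a3 := congrArg List.length e2'
      simp at a1 a2 a3
      omega
    · have a1 := congrArg List.length e1
      have a2 := congrArg List.length e1'
      simp at a1 a2
      omega
  · rcases t3 with ⟨n', m', e1', e2'⟩ | ⟨n', m', e1', e2'⟩ | ⟨n', m', e1', e2'⟩
    · have a1 := congrArg List.length e1
      have a2 := congrArg List.length e2
      have a3 := congrArg List.length e1'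
      simp at a1 a2 a3
      omega
    · have a1 := congrArg List.length e1
      have a2 := congrArg List.length e2
      have a3 := congrArg List.length e1'
      simp at a1 a2 a3
      omega
    · exfalso
      rw [e1'] at e1
      apply n24
      simp at e1
      exact e1.2.symm
  · rcases t1 with ⟨n', m', e1', e2'⟩ | ⟨n', m', e1', e2'⟩ | ⟨n', m', e1', e2'⟩
    · have a1 := congrArg List.length e1
      have a2 := congrArg List.length e2
      have a3 := congrArg List.length e2'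
      simp at a1 a2 a3
      omega
    · exfalso
      rw [e1'] at e1
      apply n13
      simp at e1
      exact e1.2
    · have a1 := congrArg List.length e1
      have a2 := congrArg List.length e2
      have a3 := congrArg List.length e1'
      simp at a1 a2 a3
      omega

open Classical in
/-- theta lemma -/
lemma U_theta {ι : Type*} (I : Finset ι) (hI : 7 ≤ I.card) (x y : ι → List ℤ)
    (hx : Set.InjOn x I) (hy : Set.InjOn y I) {h h' : List ℤ} (hne : h ≠ h')
    (hhx : ∀ i ∈ I, U.Adj h (x i)) (hhy : ∀ i ∈ I, U.Adj h' (y i)) (hxy : ∀ i ∈ I, U.Adj (x i) (y i))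
    (hxh : ∀ i ∈ I, x i ≠ h') (hyh : ∀ i ∈ I, y i ≠ h) : False := by
  have key : ∀ (x : ι → List ℤ) (h : List ℤ), Set.InjOn x I → (∀ i ∈ I, U.Adj h (x i)) →
      (I.filter (fun i => ¬ ∃ n, x i = n :: h)).card ≤ 3 := by
    intro x h hx hhx
    have h1 : ((I.filter (fun i => ¬ ∃ n, x i = n :: h)).image x).card ≤ 3 := by
      refine le_trans (Finset.card_le_card (t := {h.tail, (h.headI + 1) :: h.tail,
        (h.headI - 1) :: h.tail}) ?_) Finset.card_le_three
      intro z hz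
      simp only [Finset.mem_image, Finset.mem_filter] at hz
      obtain ⟨i, ⟨hi, hi'⟩, rfl⟩ := hz
      rcases hhx i hi with ⟨n, e⟩ | ⟨n, e⟩ | ⟨w, n, e, e'⟩ | ⟨w, n, e, e'⟩
      · exact absurd ⟨n, e⟩ hi'
      · rw [e]; simp
      · rw [e, e']; simp
      · rw [e, e']; simp
    rwa [Finset.card_image_of_injOn] at h1
    intro a ha b hb hab
    simp only [Finset.coe_filter, Set.mem_ofPred_eq] at ha hb
    exact hx ha.1 hb.1 hab
  have k1 := key x h hx hhx
  have k2 := key y h' hy hhy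
  have : ∃ i ∈ I, (∃ n, x i = n :: h) ∧ (∃ n, y i = n :: h') := by
    by_contra hcon
    push Not at hcon
    have hsub : I ⊆ (I.filter (fun i => ¬ ∃ n, x i = n :: h)) ∪
        (I.filter (fun i => ¬ ∃ n, y i = n :: h')) := by
      intro i hi
      simp only [Finset.mem_union, Finset.mem_filter]
      by_cases h1 : ∃ n, x i = n :: h
      · right
        refine ⟨hi, ?_⟩
        rintro ⟨n, hn⟩
        exact hcon i hi h1 n hn
      · left; exact ⟨hi, h1⟩
    have := (Finset.card_le_card hsub).trans (Finset.card_union_le _ _)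
    omega
  obtain ⟨i, hi, ⟨n, e1⟩, ⟨m, e2⟩⟩ := this
  have := hxy i hi
  have n1 := hxh i hi
  have n2 := hyh i hi
  rcases this with ⟨k, e⟩ | ⟨k, e⟩ | ⟨w, k, e, e'⟩ | ⟨w, k, e, e'⟩
  · rw [e2] at e; simp at e; exact n1 e.2.symm
  · rw [e1] at e; simp at e; exact n2 e.2.symm
  · rw [e1] at e; rw [e2] at e'; simp at e e'; exact hne (e.2.trans e'.2.symm)
  · rw [e2] at e; rw [e1] at e'; simp at e e'; exact hne (e'.2.trans e.2.symm)

end Pool.Agent.R204.OP
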