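import Mathlib

/-! Definitions for MP_b05c5f_co: minimal acyclic reducible bounds for outerplanar graphs. -/

namespace Pool.Agent.R204.OP

/-- A graph property: a class of finite simple graphs. -/
abbrev GProp := ∀ (V : Type) [Finite V], SimpleGraph V → Prop

/-- The property is hereditary (closed under isomorphism and under taking subgraphs: every graph
with an injective edge-preserving map into a member is a member) and additive (closed under
disjoint unions). -/
structure InLa (P : GProp) : Prop where
  hered : ∀ (V W : Type) [Finite V] [Finite W] (G : SimpleGraph V) (H : SimpleGraph W)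
    (f : W → V), Function.Injective f → (∀ a b, H.Adj a b → G.Adj (f a) (f b)) → P V G → P W H
  add : ∀ (V W : Type) [Finite V] [Finite W] (G : SimpleGraph V) (H : SimpleGraph W),
    P V G → P W H → P (V ⊕ W) (G ⊕g H)

/-- Nontrivial: contains the one-vertex graph, but not every finite graph. -/
def Nontriv (P : GProp) : Prop :=
  P Unit ⊥ ∧ ∃ (V : Type) (_ : Finite V) (G : SimpleGraph V), ¬ P V G

/-- The bipartite graph of the edges between `S` and its complement. -/
def cross {V : Type*} (G : SimpleGraph V) (S : Set V) : SimpleGraph V where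
  Adj a b := G.Adj a b ∧ (a ∈ S ↔ b ∉ S)
  symm := ⟨fun a b h => ⟨h.1.symm, by have := h.2; tauto⟩⟩
  loopless := ⟨fun a h => G.loopless.irrefl a h.1⟩

/-- The acyclic product of two properties. -/
def AProd (P₁ P₂ : GProp) : GProp := fun V _ G =>
  ∃ S : Set V, P₁ S (G.induce S) ∧ P₂ (Sᶜ : Set V) (G.induce Sᶜ) ∧ (cross G S).IsAcyclic

/-- `R` is an acyclic reducible property. -/
def AcyclicReducible (R : GProp) : Prop :=
  InLa R ∧ ∃ P₁ P₂ : GProp, InLa P₁ ∧ Nontriv P₁ ∧ InLa P₂ ∧ Nontriv P₂ ∧ R = AProd P₁ P₂

/-- Inclusion of properties. -/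
def Incl (P Q : GProp) : Prop := ∀ (V : Type) [Finite V] (G : SimpleGraph V), P V G → Q V G

/-- `R` is a minimal acyclic reducible bound of `P`. -/
def IsMinimalBound (P R : GProp) : Prop :=
  AcyclicReducible R ∧ Incl P R ∧ ∀ R' : GProp, AcyclicReducible R' → Incl P R' → Incl R' R → R' = R

/-- Outerplanar graphs: the vertices can be placed on a circle (in the order given by `φ`)
so that no two edges cross. -/
def Outerplanar : GProp := fun V _ G =>
  ∃ φ : V → ℕ, Function.Injective φ ∧
    ∀ a b c d, G.Adj a b → G.Adj c d → ¬ (φ a < φ c ∧ φ c < φ b ∧ φ b < φ d)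

/-- Edgeless graphs. -/
def Edgeless : GProp := fun _ _ G => G = ⊥

/-- The tree of fans: vertices are the finite sequences of integers (read from right to left);
`w` is adjacent to all its one-letter extensions `n :: w`, and `n :: w` is adjacent to
`(n + 1) :: w`. -/
def U : SimpleGraph (List ℤ) where
  Adj x y := (∃ n, y = n :: x) ∨ (∃ n, x = n :: y) ∨ (∃ w n, x = n :: w ∧ y = (n + 1) :: w) ∨
    (∃ w n, y = n :: w ∧ x = (n + 1) :: w)
  symm := ⟨fun a b h => by
    rcases h with h | h | h | h
    · exact Or.inr (Or.inl h)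
    · exact Or.inl h
    · exact Or.inr (Or.inr (Or.inr h))
    · exact Or.inr (Or.inr (Or.inl h))⟩
  loopless := ⟨fun a h => by
    rcases h with ⟨n, h⟩ | ⟨n, h⟩ | ⟨w, n, h, h'⟩ | ⟨w, n, h, h'⟩
    · have := congrArg List.length h; simp at this
    · have := congrArg List.length h; simp at this
    · rw [h] at h'; simp at h'
    · rw [h] at h'; simp at h'⟩

/-- The finite graphs which embed (as subgraphs) into the tree of fans. -/
def FanSub : GProp := fun V _ G =>
  ∃ f : V → List ℤ, Function.Injective f ∧ ∀ a b, G.Adj a b → U.Adj (f a) (f b)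

end Pool.Agent.R204.OP
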