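import Pool.Agent.R204.OP.Gadget

namespace Pool.Agent.R204.OP

/-- the dyadic triangulation -/
def Dy : SimpleGraph ℕ where
  Adj a b := ∃ k, (b = a + 2 ^ k ∧ 2 ^ k ∣ a) ∨ (a = b + 2 ^ k ∧ 2 ^ k ∣ b)
  symm := ⟨fun a b ⟨k, h⟩ => ⟨k, h.symm⟩⟩
  loopless := ⟨fun a ⟨k, h⟩ => by
    have := Nat.pos_of_ne_zero (pow_ne_zero k (two_ne_zero (α := ℕ)))
    rcases h with h | h <;> omega⟩

lemma dy1 {a k : ℕ} (h : 2 ^ k ∣ a) : Dy.Adj a (a + 2 ^ k) := ⟨k, Or.inl ⟨rfl, h⟩⟩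

lemma dy_noncross {a b c d : ℕ} (h1 : Dy.Adj a b) (h2 : Dy.Adj c d) :
    ¬ (a < c ∧ c < b ∧ b < d) := by
  rintro ⟨hac, hcb, hbd⟩
  obtain ⟨k, h1 | h1⟩ := h1
  swap
  · omega
  obtain ⟨l, h2 | h2⟩ := h2
  swap
  · omega
  obtain ⟨rfl, ha⟩ := h1
  obtain ⟨rfl, hc⟩ := h2
  rcases le_total k l with hkl | hkl
  · -- 2^k ∣ a, 2^k ∣ c, a < c < a + 2^k
    have hc' : 2 ^ k ∣ c := (pow_dvd_pow 2 hkl).trans hc
    obtain ⟨u, rfl⟩ := ha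
    obtain ⟨v, rfl⟩ := hc'
    have h3 : u < v := lt_of_mul_lt_mul_left hac (Nat.zero_le _)
    have h4 : 2 ^ k * v < 2 ^ k * (u + 1) := by rw [mul_add, mul_one]; exact hcb
    have h5 : v < u + 1 := lt_of_mul_lt_mul_left h4 (Nat.zero_le _)
    omega
  · -- 2^l ∣ a + 2^k, c < a + 2^k < c + 2^l
    have hb' : 2 ^ l ∣ a + 2 ^ k := dvd_add ((pow_dvd_pow 2 hkl).trans ha) (pow_dvd_pow 2 hkl)
    obtain ⟨u, hu⟩ := hb'
    obtain ⟨v, rfl⟩ := hc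
    rw [hu] at hcb hbd
    have h3 : v < u := lt_of_mul_lt_mul_left hcb (Nat.zero_le _)
    have h4 : 2 ^ l * u < 2 ^ l * (v + 1) := by rw [mul_add, mul_one]; exact hbd
    have h5 : u < v + 1 := lt_of_mul_lt_mul_left h4 (Nat.zero_le _)
    omega

def Xg (n : ℕ) (S : Set ℕ) : SimpleGraph ℕ where
  Adj a b := a ≤ 2 ^ n ∧ b ≤ 2 ^ n ∧ Dy.Adj a b ∧ (a ∈ S ↔ b ∉ S)
  symm := ⟨fun a b h => ⟨h.2.1, h.1, h.2.2.1.symm, by have := h.2.2.2; tauto⟩⟩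
  loopless := ⟨fun a h => h.2.2.1.ne rfl⟩

def Xr (n : ℕ) (S : Set ℕ) (lo hi : ℕ) : SimpleGraph ℕ where
  Adj a b := (Xg n S).Adj a b ∧ lo ≤ a ∧ a ≤ hi ∧ lo ≤ b ∧ b ≤ hi
  symm := ⟨fun a b h => ⟨h.1.symm, h.2.2.2.1, h.2.2.2.2, h.2.1, h.2.2.1⟩⟩
  loopless := ⟨fun a h => h.1.ne rfl⟩

lemma Xr_mono {n : ℕ} {S : Set ℕ} {lo hi lo' hi' : ℕ} (h1 : lo' ≤ lo) (h2 : hi ≤ hi') :
    Xr n S lo hi ≤ Xr n S lo' hi' := by
  intro a b h
  exact ⟨h.1, by have := h.2; omega, by have := h.2; omega, by have := h.2; omega,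
    by have := h.2; omega⟩

def InT (n : ℕ) (S : Set ℕ) (v : ℕ) : Prop :=
  v ≤ 2 ^ n ∧ v ∉ S ∧ ∃ a b, a ≤ 2 ^ n ∧ b ≤ 2 ^ n ∧ a ∉ S ∧ b ∉ S ∧ Dy.Adj v a ∧ Dy.Adj v b ∧
    Dy.Adj a b

structure Cfg (n : ℕ) (S : Set ℕ) (f : ℕ → List ℤ) : Prop where
  ind : ∀ a b, a ≤ 2 ^ n → b ≤ 2 ^ n → Dy.Adj a b → ¬ (a ∈ S ∧ b ∈ S)
  acyc : (Xg n S).IsAcyclic
  emb : ∀ a b, InT n S a → InT n S b → Dy.Adj a b → U.Adj (f a) (f b)
  inj : ∀ a b, InT n S a → InT n S b → f a = f b → a = b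

def Gd (n : ℕ) (S : Set ℕ) (a k : ℕ) : Prop :=
  a ∉ S ∧ a + 2 ^ k ∉ S ∧ ¬ (Xr n S a (a + 2 ^ k)).Reachable a (a + 2 ^ k)

lemma gd_split {n : ℕ} {S : Set ℕ} {a k : ℕ} (hdiv : 2 ^ (k + 1) ∣ a) (hle : a + 2 ^ (k + 1) ≤ 2 ^ n)
    (h : Gd n S a (k + 1)) : a + 2 ^ k ∉ S ∧ (Gd n S a k ∨ Gd n S (a + 2 ^ k) k) := by
  obtain ⟨h1, h2, h3⟩ := h
  have hk : 2 ^ (k + 1) = 2 ^ k + 2 ^ k := by ring
  have hk0 : 0 < 2 ^ k := by positivity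
  have hd : 2 ^ k ∣ a := (pow_dvd_pow 2 (Nat.le_succ k)).trans hdiv
  have hd2 : 2 ^ k ∣ a + 2 ^ k := dvd_add hd dvd_rfl
  have hd1 := dy1 hd
  have hd3 := dy1 hd2
  rw [hk, ← add_assoc] at h2 h3 hle
  have hr : a + 2 ^ k ∉ S := by
    intro hr
    apply h3
    have e1 : (Xr n S a (a + 2 ^ k + 2 ^ k)).Adj a (a + 2 ^ k) :=
      ⟨⟨by omega, by omega, hd1, by tauto⟩, by omega, by omega, by omega, by omega⟩
    have e2 : (Xr n S a (a + 2 ^ k + 2 ^ k)).Adj (a + 2 ^ k) (a + 2 ^ k + 2 ^ k) :=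
      ⟨⟨by omega, by omega, hd3, by tauto⟩, by omega, by omega, by omega, by omega⟩
    exact e1.reachable.trans e2.reachable
  refine ⟨hr, ?_⟩
  by_contra hcon
  unfold Gd at hcon
  have c1 : (Xr n S a (a + 2 ^ k)).Reachable a (a + 2 ^ k) := by
    by_contra hc; exact hcon (Or.inl ⟨h1, hr, hc⟩)
  have c2 : (Xr n S (a + 2 ^ k) (a + 2 ^ k + 2 ^ k)).Reachable (a + 2 ^ k) (a + 2 ^ k + 2 ^ k) := by
    by_contra hc; exact hcon (Or.inr ⟨hr, h2, hc⟩)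
  exact h3 ((c1.mono (Xr_mono le_rfl (by omega))).trans (c2.mono (Xr_mono (by omega) le_rfl)))

lemma inT_of_tri {n : ℕ} {S : Set ℕ} {a b c : ℕ} (ha : a ≤ 2 ^ n) (hb : b ≤ 2 ^ n) (hc : c ≤ 2 ^ n)
    (haS : a ∉ S) (hbS : b ∉ S) (hcS : c ∉ S) (hab : Dy.Adj a b) (hac : Dy.Adj a c)
    (hbc : Dy.Adj b c) : InT n S a ∧ InT n S b ∧ InT n S c :=
  ⟨⟨ha, haS, b, c, hb, hc, hbS, hcS, hab, hac, hbc⟩,
    ⟨hb, hbS, a, c, ha, hc, haS, hcS, hab.symm, hbc, hac⟩,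
    ⟨hc, hcS, a, b, ha, hb, haS, hbS, hac.symm, hbc.symm, hab⟩⟩

lemma gem_use {n : ℕ} {S : Set ℕ} {f : ℕ → List ℤ} (C : Cfg n S f) {c r1 r2 r3 r4 : ℕ}
    (t1 : InT n S r1) (t2 : InT n S r2) (t3 : InT n S r3) (t4 : InT n S r4) (tc : InT n S c)
    (h1 : Dy.Adj c r1) (h2 : Dy.Adj c r2) (h3 : Dy.Adj c r3) (h4 : Dy.Adj c r4)
    (h12 : Dy.Adj r1 r2) (h23 : Dy.Adj r2 r3) (h34 : Dy.Adj r3 r4) (n13 : r1 ≠ r3) (n24 : r2 ≠ r4) :
    ∃ m, f r1 = m :: f c :=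
  U_gem (C.emb _ _ tc t1 h1) (C.emb _ _ tc t2 h2) (C.emb _ _ tc t3 h3) (C.emb _ _ tc t4 h4)
    (C.emb _ _ t1 t2 h12) (C.emb _ _ t2 t3 h23) (C.emb _ _ t3 t4 h34)
    (fun h => n13 (C.inj _ _ t1 t3 h)) (fun h => n24 (C.inj _ _ t2 t4 h))

lemma dyq {a b k q : ℕ} (hq : 2 ^ k = q) (hd : q ∣ a) (hb : b = a + q) : Dy.Adj a b := by
  subst hq; rw [hb]; exact dy1 hd

lemma gem_at {n : ℕ} {S : Set ℕ} {f : ℕ → List ℤ} (C : Cfg n S f) {p k : ℕ}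
    (hp : p ∉ S) (hdiv : 2 ^ (k + 3) ∣ p) (hle : p + 2 ^ (k + 3) ≤ 2 ^ n)
    (hG : Gd n S (p + 2 ^ (k + 2)) (k + 2)) :
    (InT n S (p + 2 ^ (k + 2)) ∧ ∃ m, f p = m :: f (p + 2 ^ (k + 2))) ∨
    (InT n S (p + 2 ^ (k + 3)) ∧ ∃ m, f p = m :: f (p + 2 ^ (k + 3))) := by
  set q := 2 ^ k with hq
  have q1 : 2 ^ (k + 1) = 2 * q := by rw [hq]; ring
  have q2 : 2 ^ (k + 2) = 4 * q := by rw [hq]; ring
  have q3 : 2 ^ (k + 3) = 8 * q := by rw [hq]; ring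
  have hq0 : 0 < q := by rw [hq]; positivity
  obtain ⟨t, ht⟩ : ∃ t, p = 8 * q * t := by rw [← q3]; exact hdiv
  obtain ⟨g1, g2, g3⟩ := hG
  have hG' : Gd n S (p + 2 ^ (k + 2)) (k + 1 + 1) := ⟨g1, g2, g3⟩
  have d1 : q ∣ p := ⟨8 * t, by rw [ht]; ring⟩
  have d2 : 2 * q ∣ p := ⟨4 * t, by rw [ht]; ring⟩
  have d4 : 4 * q ∣ p := ⟨2 * t, by rw [ht]; ring⟩
  have d8 : 8 * q ∣ p := ⟨t, ht⟩
  obtain ⟨hr, hG2⟩ := gd_split (a := p + 2 ^ (k + 2)) (k := k + 1)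
    (by
      have : k + 1 + 1 = k + 2 := rfl
      rw [this, q2]; exact dvd_add d4 dvd_rfl)
    (by
      have : k + 1 + 1 = k + 2 := rfl
      rw [this, q2]; rw [q3] at hle; omega) hG'
  rw [q2, q1] at hr hG2
  rw [q2] at g1 g2
  rw [q3] at hle
  have e6 : p + 4 * q + 2 * q = p + 6 * q := by ring
  have e8 : p + 4 * q + 4 * q = p + 8 * q := by ring
  rw [e6] at hr hG2
  rw [e8] at g2
  rw [q2, q3]
  -- adjacency
  have a04 : Dy.Adj p (p + 4 * q) := dyq q2 d4 rfl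
  have a08 : Dy.Adj p (p + 8 * q) := dyq q3 d8 rfl
  have a48 : Dy.Adj (p + 4 * q) (p + 8 * q) := dyq q2 (dvd_add d4 dvd_rfl) (by ring)
  have a46 : Dy.Adj (p + 4 * q) (p + 6 * q) :=
    dyq q1 (dvd_add d2 ⟨2, by ring⟩) (by ring)
  have a68 : Dy.Adj (p + 6 * q) (p + 8 * q) :=
    dyq q1 (dvd_add d2 ⟨3, by ring⟩) (by ring)
  obtain ⟨T0, T4, T8⟩ := inT_of_tri (n := n) (S := S) (a := p) (b := p + 4 * q) (c := p + 8 * q)
    (by omega) (by omega) (by omega) hp g1 g2 a04 a08 a48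
  obtain ⟨-, T6, -⟩ := inT_of_tri (n := n) (S := S) (a := p + 4 * q) (b := p + 6 * q)
    (c := p + 8 * q) (by omega) (by omega) (by omega) g1 hr g2 a46 a48 a68
  rcases hG2 with hG2 | hG2
  · left
    refine ⟨T4, ?_⟩
    obtain ⟨h5, -⟩ := gd_split (a := p + 4 * q) (k := k)
      (by rw [q1]; exact dvd_add d2 ⟨2, by ring⟩) (by rw [q1]; omega) hG2
    rw [← hq] at h5
    have e5 : p + 4 * q + q = p + 5 * q := by ring
    rw [e5] at h5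
    have a45 : Dy.Adj (p + 4 * q) (p + 5 * q) := dyq hq.symm (dvd_add d1 ⟨4, by ring⟩) (by ring)
    have a56 : Dy.Adj (p + 5 * q) (p + 6 * q) := dyq hq.symm (dvd_add d1 ⟨5, by ring⟩) (by ring)
    obtain ⟨-, T5, -⟩ := inT_of_tri (n := n) (S := S) (a := p + 4 * q) (b := p + 5 * q)
      (c := p + 6 * q) (by omega) (by omega) (by omega) g1 h5 hr a45 a46 a56
    exact gem_use C T0 T8 T6 T5 T4 a04.symm a48 a46 a45 a08 a68.symm a56.symm (by omega) (by omega)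
  · right
    refine ⟨T8, ?_⟩
    obtain ⟨h7, -⟩ := gd_split (a := p + 6 * q) (k := k)
      (by rw [q1]; exact dvd_add d2 ⟨3, by ring⟩) (by rw [q1]; omega) hG2
    rw [← hq] at h7
    have e7 : p + 6 * q + q = p + 7 * q := by ring
    rw [e7] at h7
    have a67 : Dy.Adj (p + 6 * q) (p + 7 * q) := dyq hq.symm (dvd_add d1 ⟨6, by ring⟩) (by ring)
    have a78 : Dy.Adj (p + 7 * q) (p + 8 * q) := dyq hq.symm (dvd_add d1 ⟨7, by ring⟩) (by ring)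
    obtain ⟨-, T7, -⟩ := inT_of_tri (n := n) (S := S) (a := p + 6 * q) (b := p + 7 * q)
      (c := p + 8 * q) (by omega) (by omega) (by omega) hr h7 g2 a67 a68 a78
    exact gem_use C T0 T4 T6 T7 T8 a08.symm a48.symm a68.symm a78.symm a04 a46 a67 (by omega)
      (by omega)

lemma consec {n : ℕ} {S : Set ℕ} {f : ℕ → List ℤ} (C : Cfg n S f) {p m j t : ℕ}
    (hp : p ∉ S) (hdiv : 2 ^ m ∣ p) (hle : p + 2 ^ m ≤ 2 ^ n) (hj : 1 ≤ j) (hjt : j < t + 1)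
    (htm : t + 1 ≤ m) (hjS : p + 2 ^ j ∈ S) (htS : p + 2 ^ (t + 1) ∈ S)
    (hbet : ∀ i, j < i → i < t + 1 → p + 2 ^ i ∉ S) :
    ∃ i, j < i ∧ i < t ∧ Gd n S (p + 2 ^ i) i := by
  have hpw : ∀ i, i ≤ m → 2 ^ i ≤ 2 ^ m := fun i hi => Nat.pow_le_pow_right (by norm_num) hi
  have hdv : ∀ i, i ≤ m → 2 ^ i ∣ p := fun i hi => (pow_dvd_pow 2 hi).trans hdiv
  have hstep : ∀ i, i + 1 ≤ m → Dy.Adj (p + 2 ^ i) (p + 2 ^ (i + 1)) := by
    intro i hi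
    exact dyq (k := i) rfl (dvd_add (hdv i (by omega)) dvd_rfl) (by ring)
  have hpos : ∀ i : ℕ, 0 < 2 ^ i := fun i => by positivity
  have hjt' : j < t := by
    by_contra h
    have : j = t := by omega
    subst this
    exact C.ind _ _ (by have := hpw j (by omega); omega) (by have := hpw (j + 1) htm; omega)
      (hstep j htm) ⟨hjS, htS⟩
  by_contra hcon
  push Not at hcon
  have hreach : ∀ i, j + 1 ≤ i → i ≤ t →
      (Xr n S (p + 1) (2 ^ n)).Reachable (p + 2 ^ (j + 1)) (p + 2 ^ i) := by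
    intro i hi
    induction i, hi using Nat.le_induction with
    | base => intro _; exact SimpleGraph.Reachable.refl _
    | succ i hi ih =>
      intro hit
      have h1 := ih (by omega)
      have h2 := hcon i (by omega) (by omega)
      unfold Gd at h2
      have h3 : (Xr n S (p + 2 ^ i) (p + 2 ^ i + 2 ^ i)).Reachable (p + 2 ^ i)
          (p + 2 ^ i + 2 ^ i) := by
        by_contra hc
        apply h2
        refine ⟨hbet i (by omega) (by omega), ?_, hc⟩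
        have : p + 2 ^ i + 2 ^ i = p + 2 ^ (i + 1) := by ring
        rw [this]; exact hbet (i + 1) (by omega) (by omega)
      have e : p + 2 ^ i + 2 ^ i = p + 2 ^ (i + 1) := by ring
      rw [e] at h3
      refine h1.trans (h3.mono (Xr_mono ?_ ?_))
      · have := hpos i; omega
      · have := hpw (i + 1) (by omega); omega
  have r1 := hreach t (by omega) le_rfl
  have a1 : (Xr n S (p + 1) (2 ^ n)).Adj (p + 2 ^ j) (p + 2 ^ (j + 1)) := by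
    have h1 := hpw j (by omega)
    have h2 := hpw (j + 1) (by omega)
    have h3 := hpos j
    have h4 := hpos (j + 1)
    refine ⟨⟨by omega, by omega, hstep j (by omega), ?_⟩, by omega, by omega, by omega, by omega⟩
    exact ⟨fun _ => hbet (j + 1) (by omega) (by omega), fun _ => hjS⟩
  have a2 : (Xr n S (p + 1) (2 ^ n)).Adj (p + 2 ^ t) (p + 2 ^ (t + 1)) := by
    have h1 := hpw t (by omega)
    have h2 := hpw (t + 1) (by omega)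
    have h3 := hpos t
    have h4 := hpos (t + 1)
    refine ⟨⟨by omega, by omega, hstep t (by omega), ?_⟩, by omega, by omega, by omega, by omega⟩
    exact ⟨fun h => absurd h (hbet t (by omega) (by omega)), fun h => absurd htS h⟩
  have r2 := (a1.reachable.trans r1).trans a2.reachable
  have hlt : 2 ^ j < 2 ^ (t + 1) := Nat.pow_lt_pow_right (by norm_num) hjt
  have b1 : (Xg n S).Adj p (p + 2 ^ j) := by
    have h1 := hpw j (by omega)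
    exact ⟨by omega, by omega, dy1 (hdv j (by omega)), fun h => absurd h hp, fun h => absurd hjS h⟩
  have b2 : (Xg n S).Adj p (p + 2 ^ (t + 1)) := by
    have h1 := hpw (t + 1) (by omega)
    exact ⟨by omega, by omega, dy1 (hdv (t + 1) (by omega)), fun h => absurd h hp,
      fun h => absurd htS h⟩
  apply acyclic_detour C.acyc b1
  have c1 : ((Xg n S).deleteEdges {s(p, p + 2 ^ j)}).Adj p (p + 2 ^ (t + 1)) := by
    rw [SimpleGraph.deleteEdges_adj]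
    refine ⟨b2, ?_⟩
    simp only [Set.mem_singleton_iff, Sym2.eq_iff]
    have := hpos j
    omega
  refine c1.reachable.trans (r2.symm.mono ?_)
  intro a b hab
  rw [SimpleGraph.deleteEdges_adj]
  refine ⟨hab.1, ?_⟩
  have := hab.2
  simp only [Set.mem_singleton_iff, Sym2.eq_iff]
  omega

lemma pairS {n : ℕ} {S : Set ℕ} {f : ℕ → List ℤ} (C : Cfg n S f) {p m j j' : ℕ}
    (hp : p ∉ S) (hdiv : 2 ^ m ∣ p) (hle : p + 2 ^ m ≤ 2 ^ n) (hj : 1 ≤ j) (hjj : j < j')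
    (hjm : j' ≤ m) (hjS : p + 2 ^ j ∈ S) (hjS' : p + 2 ^ j' ∈ S) :
    ∃ a, j < a ∧ a < j' ∧ InT n S (p + 2 ^ a) ∧ ∃ c, f p = c :: f (p + 2 ^ a) := by
  classical
  obtain ⟨j0, h1, h2, h3, h4⟩ : ∃ j0, j ≤ j0 ∧ j0 < j' ∧ p + 2 ^ j0 ∈ S ∧
      ∀ i, j0 < i → i < j' → p + 2 ^ i ∉ S := by
    have hsp := Nat.findGreatest_spec (P := fun t => t < j' ∧ p + 2 ^ t ∈ S) (m := j) (n := j')
      hjj.le ⟨hjj, hjS⟩
    refine ⟨Nat.findGreatest (fun t => t < j' ∧ p + 2 ^ t ∈ S) j',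
      Nat.le_findGreatest hjj.le ⟨hjj, hjS⟩, hsp.1, hsp.2, ?_⟩
    intro i hi hi' hiS
    exact Nat.findGreatest_is_greatest hi hi'.le ⟨hi', hiS⟩
  obtain ⟨t, rfl⟩ : ∃ t, j' = t + 1 := ⟨j' - 1, by omega⟩
  obtain ⟨i, hi1, hi2, hG⟩ := consec C hp hdiv hle (by omega) h2 hjm h3 hjS' h4
  obtain ⟨k, rfl⟩ : ∃ k, i = k + 2 := ⟨i - 2, by omega⟩
  have hpw : 2 ^ (k + 3) ≤ 2 ^ m := Nat.pow_le_pow_right (by norm_num) (by omega)
  rcases gem_at C hp ((pow_dvd_pow 2 (by omega)).trans hdiv) (by omega) hG with h | h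
  · exact ⟨k + 2, by omega, by omega, h⟩
  · exact ⟨k + 3, by omega, by omega, h⟩

lemma no_three {n : ℕ} {S : Set ℕ} {f : ℕ → List ℤ} (C : Cfg n S f) {p m a b c : ℕ}
    (hp : p ∉ S) (hdiv : 2 ^ m ∣ p) (hle : p + 2 ^ m ≤ 2 ^ n) (ha : 1 ≤ a) (hab : a < b)
    (hbc : b < c) (hcm : c ≤ m) (haS : p + 2 ^ a ∈ S) (hbS : p + 2 ^ b ∈ S)
    (hcS : p + 2 ^ c ∈ S) : False := by
  obtain ⟨u, hu1, hu2, hu3, x, hx⟩ := pairS C hp hdiv hle ha hab (by omega) haS hbS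
  obtain ⟨v, hv1, hv2, hv3, y, hy⟩ := pairS C hp hdiv hle (by omega) hbc hcm hbS hcS
  rw [hx] at hy
  have h1 : f (p + 2 ^ u) = f (p + 2 ^ v) := by
    simp only [List.cons.injEq] at hy
    exact hy.2
  have h2 := C.inj _ _ hu3 hv3 h1
  have h3 : 2 ^ u < 2 ^ v := Nat.pow_lt_pow_right (by norm_num) (by omega)
  omega

lemma run {n : ℕ} {S : Set ℕ} {f : ℕ → List ℤ} (C : Cfg n S f) {p m B L : ℕ}
    (hp : p ∉ S) (hdiv : 2 ^ m ∣ p) (hle : p + 2 ^ m ≤ 2 ^ n) (hB : 1 ≤ B)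
    (hm : B + 3 * L ≤ m) :
    ∃ s, B ≤ s ∧ s + L ≤ m ∧ ∀ i, s ≤ i → i < s + L → p + 2 ^ i ∉ S := by
  by_contra hcon
  push Not at hcon
  obtain ⟨a, ha1, ha2, ha3⟩ := hcon B le_rfl (by omega)
  obtain ⟨b, hb1, hb2, hb3⟩ := hcon (B + L) (by omega) (by omega)
  obtain ⟨c, hc1, hc2, hc3⟩ := hcon (B + 2 * L) (by omega) (by omega)
  exact no_three C hp hdiv hle (by omega) (show a < b by omega) (show b < c by omega) (by omega)
    ha3 hb3 hc3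

end Pool.Agent.R204.OP
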