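import Pool.Agent.R204.OP.La

namespace Pool.Agent.R204.OP

/-- `m` disjoint copies of `H` -/
def copies {V : Type} (H : SimpleGraph V) (m : ℕ) : SimpleGraph (Fin m × V) where
  Adj p q := p.1 = q.1 ∧ H.Adj p.2 q.2
  symm := ⟨fun _ _ h => ⟨h.1.symm, h.2.symm⟩⟩
  loopless := ⟨fun _ h => h.2.ne rfl⟩

/-- the gadget graph: hubs (with graph `E`), and `m` copies of `H`, each vertex joined to its hub -/
def Gad {V : Type} (H E : SimpleGraph V) (m : ℕ) : SimpleGraph (V ⊕ (Fin m × V)) where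
  Adj a b := match a, b with
    | Sum.inl u, Sum.inl v => E.Adj u v
    | Sum.inl u, Sum.inr q => u = q.2
    | Sum.inr p, Sum.inl v => v = p.2
    | Sum.inr p, Sum.inr q => p.1 = q.1 ∧ H.Adj p.2 q.2
  symm := ⟨by
    rintro (a | a) (b | b) h
    · exact E.symm.symm _ _ h
    · exact h
    · exact h
    · exact ⟨h.1.symm, h.2.symm⟩⟩
  loopless := ⟨by
    rintro (a | a) h
    · exact SimpleGraph.Adj.ne (G := E) h rfl
    · exact h.2.ne rfl⟩

lemma copies_mem {P : GProp} (hP : InLa P) {V : Type} [Finite V] {H : SimpleGraph V} (h : P V H) :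
    ∀ m, P (Fin m × V) (copies H m) := by
  intro m
  induction m with
  | zero =>
    exact hP.of_iso (fun p => p.2) (fun a => Fin.elim0 a.1) (fun a => Fin.elim0 a.1) h
  | succ m ih =>
    refine hP.of_iso (G := copies H m ⊕g H)
      (fun p => if hp : p.1.val < m then Sum.inl (⟨p.1.val, hp⟩, p.2) else Sum.inr p.2) ?_ ?_
      (hP.add _ _ _ _ ih h)
    · rintro ⟨i, a⟩ ⟨j, b⟩ hab
      by_cases hi : i.val < m <;> by_cases hj : j.val < m
      · simp only [hi, hj, dif_pos, Sum.inl.injEq, Prod.mk.injEq, Fin.mk.injEq] at hab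
        rw [Prod.mk.injEq]
        exact ⟨Fin.ext hab.1, hab.2⟩
      · simp [hi, hj] at hab
      · simp [hi, hj] at hab
      · simp only [hi, hj, dif_neg, not_false_eq_true, Sum.inr.injEq] at hab
        rw [Prod.mk.injEq]
        exact ⟨Fin.ext (by omega), hab⟩
    · rintro ⟨i, a⟩ ⟨j, b⟩ ⟨hab1, hab2⟩
      have hij : i = j := hab1
      subst hij
      by_cases hi : i.val < m
      · simp only [hi, dif_pos, SimpleGraph.sum_adj]
        exact ⟨rfl, hab2⟩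
      · simp only [hi, dif_neg, not_false_eq_true, SimpleGraph.sum_adj]
        exact hab2

lemma gad_mem {P₁ P₂ : GProp} (h1 : InLa P₁) (h2 : InLa P₂) {V : Type} [Finite V]
    {H E : SimpleGraph V} (hE : P₁ V E) (hH : P₂ V H) (m : ℕ) :
    AProd P₁ P₂ (V ⊕ (Fin m × V)) (Gad H E m) := by
  refine ⟨{x | x.isLeft = true}, ?_, ?_, ?_⟩
  · refine h1.of_iso (G := E) (fun x => match x with
      | ⟨Sum.inl v, _⟩ => v
      | ⟨Sum.inr v, _⟩ => v.2) ?_ ?_ hE
    · rintro ⟨a | a, ha⟩ ⟨b | b, hb⟩ hab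
      · have : a = b := hab
        subst this; rfl
      · exact absurd hb (by simp)
      · exact absurd ha (by simp)
      · exact absurd ha (by simp)
    · rintro ⟨a | a, ha⟩ ⟨b | b, hb⟩ hab
      · exact hab
      · exact absurd hb (by simp)
      · exact absurd ha (by simp)
      · exact absurd ha (by simp)
  · refine h2.of_iso (G := copies H m) (fun x => match x with
      | ⟨Sum.inl v, hv⟩ => absurd rfl hv
      | ⟨Sum.inr v, _⟩ => v) ?_ ?_ (copies_mem h2 hH m)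
    · rintro ⟨a | a, ha⟩ ⟨b | b, hb⟩ hab
      · exact absurd rfl ha
      · exact absurd rfl ha
      · exact absurd rfl hb
      · have : a = b := hab
        subst this; rfl
    · rintro ⟨a | a, ha⟩ ⟨b | b, hb⟩ hab
      · exact absurd rfl ha
      · exact absurd rfl ha
      · exact absurd rfl hb
      · exact hab
  · apply leaf_acyclic {x | x.isRight = true}
    · rintro (v | v) hv (a | a) (b | b) ha hb
      · exact absurd hv (by simp)
      · exact absurd hv (by simp)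
      · exact absurd hv (by simp)
      · exact absurd hv (by simp)
      · have e1 : a = v.2 := ha.1
        have e2 : b = v.2 := hb.1
        rw [e1, e2]
      · exact absurd hb.2 (by simp)
      · exact absurd ha.2 (by simp)
      · exact absurd ha.2 (by simp)
    · rintro (v | v) (w | w) h
      · exact absurd h.2 (by simp)
      · right; simp
      · left; simp
      · left; simp

theorem gadget_core {V : Type} [Finite V] (H E : SimpleGraph V)
    (htri : ∀ v, ∃ a b, H.Adj v a ∧ H.Adj v b ∧ H.Adj a b)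
    (hQ : ∀ m, AProd Edgeless FanSub (V ⊕ (Fin m × V)) (Gad H E m)) :
    ∃ A : Set V, (∀ u v, E.Adj u v → ¬ (u ∈ A ∧ v ∈ A)) ∧
      (∀ w w', H.Adj w w' → ¬ (w ∉ A ∧ w' ∉ A)) ∧ FanSub V H := by
  classical
  have := Fintype.ofFinite V
  obtain ⟨m, hm⟩ : ∃ m, m = 6 * Fintype.card (Set V) + 1 := ⟨_, rfl⟩
  obtain ⟨S, hS1, ⟨f, hf, hfadj⟩, hS3⟩ := hQ m
  have hind : ∀ a b, a ∈ S → b ∈ S → ¬ (Gad H E m).Adj a b := by
    intro a b ha hb hab
    have e : (Gad H E m).induce S = ⊥ := hS1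
    have h1 : ((Gad H E m).induce S).Adj ⟨a, ha⟩ ⟨b, hb⟩ := hab
    rw [e] at h1
    exact h1
  obtain ⟨F, hF1, hF2⟩ : ∃ F : (V ⊕ (Fin m × V)) → List ℤ,
      (∀ a b, a ∉ S → b ∉ S → F a = F b → a = b) ∧
      (∀ a b, a ∉ S → b ∉ S → (Gad H E m).Adj a b → U.Adj (F a) (F b)) := by
    refine ⟨fun x => if h : x ∈ Sᶜ then f ⟨x, h⟩ else [], ?_, ?_⟩
    · intro a b ha hb hab
      have ha' : a ∈ Sᶜ := ha
      have hb' : b ∈ Sᶜ := hb
      simp only [ha', hb', dif_pos] at hab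
      exact congrArg Subtype.val (hf hab)
    · intro a b ha hb hab
      have ha' : a ∈ Sᶜ := ha
      have hb' : b ∈ Sᶜ := hb
      simp only [ha', hb', dif_pos]
      exact hfadj ⟨a, ha'⟩ ⟨b, hb'⟩ hab
  obtain ⟨B, hB⟩ := Fintype.exists_lt_card_fiber_of_mul_lt_card
    (f := fun i : Fin m => {u : V | Sum.inr (i, u) ∈ S}) (n := 6) (by
      rw [Fintype.card_fin, hm]; omega)
  set I : Finset (Fin m) := {i : Fin m | {u : V | Sum.inr (i, u) ∈ S} = B} with hI
  have hI7 : 7 ≤ I.card := hB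
  have hIB : ∀ i ∈ I, ∀ u, Sum.inr (i, u) ∈ S ↔ u ∈ B := by
    intro i hi u
    have : {u : V | Sum.inr (i, u) ∈ S} = B := by simpa [hI] using hi
    rw [← this]; rfl
  obtain ⟨i, hi, j, hj, hij⟩ := Finset.one_lt_card.mp (show 1 < I.card by omega)
  have C1 : ∀ w w', H.Adj w w' → Sum.inl w ∉ S → Sum.inl w' ∉ S → w ∉ B → w' ∉ B → False := by
    intro w w' hww h1 h2 h3 h4
    refine U_theta I hI7 (fun i => F (Sum.inr (i, w))) (fun i => F (Sum.inr (i, w')))
      ?_ ?_ (h := F (Sum.inl w)) (h' := F (Sum.inl w')) ?_ ?_ ?_ ?_ ?_ ?_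
    · intro a ha b hb hab
      have := hF1 _ _ (fun h => h3 ((hIB a ha w).mp h)) (fun h => h3 ((hIB b hb w).mp h)) hab
      simp only [Sum.inr.injEq, Prod.mk.injEq, and_true] at this
      exact this
    · intro a ha b hb hab
      have := hF1 _ _ (fun h => h4 ((hIB a ha w').mp h)) (fun h => h4 ((hIB b hb w').mp h)) hab
      simp only [Sum.inr.injEq, Prod.mk.injEq, and_true] at this
      exact this
    · intro h
      have := hF1 _ _ h1 h2 h
      simp only [Sum.inl.injEq] at this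
      exact hww.ne this
    · intro a ha
      exact hF2 _ _ h1 (fun h => h3 ((hIB a ha w).mp h)) rfl
    · intro a ha
      exact hF2 _ _ h2 (fun h => h4 ((hIB a ha w').mp h)) rfl
    · intro a ha
      exact hF2 _ _ (fun h => h3 ((hIB a ha w).mp h)) (fun h => h4 ((hIB a ha w').mp h)) ⟨rfl, hww⟩
    · intro a ha h
      have := hF1 _ _ (fun h => h3 ((hIB a ha w).mp h)) h2 h
      simp at this
    · intro a ha h
      have := hF1 _ _ (fun h => h4 ((hIB a ha w').mp h)) h1 h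
      simp at this
  have C2 : ∀ u, u ∉ B := by
    intro u hu
    obtain ⟨a, b, hua, hub, hab⟩ := htri u
    have hiu := (hIB i hi u).mpr hu
    have hju := (hIB j hj u).mpr hu
    have haB : a ∉ B := fun h => hind _ _ hiu ((hIB i hi a).mpr h) ⟨rfl, hua⟩
    have hbB : b ∉ B := fun h => hind _ _ hiu ((hIB i hi b).mpr h) ⟨rfl, hub⟩
    have hhu : Sum.inl u ∉ S := fun h => hind (Sum.inl u) (Sum.inr (i, u)) h hiu rfl
    have key : ∀ a, H.Adj u a → a ∉ B → Sum.inl a ∉ S := by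
      intro a hua haB haS
      have hia : Sum.inr (i, a) ∉ S := fun h => haB ((hIB i hi a).mp h)
      have hja : Sum.inr (j, a) ∉ S := fun h => haB ((hIB j hj a).mp h)
      refine no_cyc6 hS3 (a := Sum.inl u) (b := Sum.inr (i, u)) (c := Sum.inr (i, a))
        (d := Sum.inl a) (e := Sum.inr (j, a)) (f := Sum.inr (j, u)) ⟨rfl, ?_⟩ ⟨⟨rfl, hua⟩, ?_⟩
        ⟨rfl, ?_⟩ ⟨rfl, ?_⟩ ⟨⟨rfl, hua.symm⟩, ?_⟩ ⟨rfl, ?_⟩ ?_ ?_ ?_ ?_ ?_
      · simp [hhu, hiu]
      · simp [hia, hiu]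
      · simp [hia, haS]
      · simp [hja, haS]
      · simp [hja, hju]
      · simp [hhu, hju]
      · simp
      · simp [hij]
      · simp
      · simp
      · simp [hua.ne]
    exact C1 a b hab (key a hua haB) (key b hub hbB) haB hbB
  refine ⟨{u | Sum.inl u ∈ S}, ?_, ?_, ?_⟩
  · intro u v huv h
    exact hind _ _ h.1 h.2 huv
  · intro w w' hww h
    exact C1 w w' hww h.1 h.2 (C2 w) (C2 w')
  · refine ⟨fun v => F (Sum.inr (i, v)), ?_, ?_⟩
    · intro a b hab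
      have := hF1 _ _ (fun h => C2 a ((hIB i hi a).mp h)) (fun h => C2 b ((hIB i hi b).mp h)) hab
      simpa using this
    · intro a b hab
      exact hF2 _ _ (fun h => C2 a ((hIB i hi a).mp h)) (fun h => C2 b ((hIB i hi b).mp h))
        ⟨rfl, hab⟩

/-- the diamond `K₄ - e` -/
def diamond : SimpleGraph (Fin 4) where
  Adj a b := a ≠ b ∧ ¬ (a = 2 ∧ b = 3) ∧ ¬ (a = 3 ∧ b = 2)
  symm := ⟨fun a b h => by tauto⟩
  loopless := ⟨fun a h => h.1 rfl⟩

def twoK2 : SimpleGraph (Fin 4) where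
  Adj a b := (a = 0 ∧ b = 1) ∨ (a = 1 ∧ b = 0) ∨ (a = 2 ∧ b = 3) ∨ (a = 3 ∧ b = 2)
  symm := ⟨fun a b h => by tauto⟩
  loopless := ⟨fun a h => by revert a; decide⟩

instance : DecidableRel diamond.Adj := fun a b =>
  inferInstanceAs (Decidable (a ≠ b ∧ ¬ (a = 2 ∧ b = 3) ∧ ¬ (a = 3 ∧ b = 2)))

instance : DecidableRel twoK2.Adj := fun a b =>
  inferInstanceAs (Decidable ((a = 0 ∧ b = 1) ∨ (a = 1 ∧ b = 0) ∨ (a = 2 ∧ b = 3) ∨
    (a = 3 ∧ b = 2)))

lemma no_K2_diamond {P₁ P₂ : GProp} (h1 : InLa P₁) (h2 : InLa P₂) (hK : P₁ (Fin 2) ⊤)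
    (hD : P₂ (Fin 4) diamond) (hI : Incl (AProd P₁ P₂) (AProd Edgeless FanSub)) : False := by
  have hE : P₁ (Fin 4) twoK2 := by
    refine h1.of_iso (G := (⊤ : SimpleGraph (Fin 2)) ⊕g (⊤ : SimpleGraph (Fin 2)))
      ![Sum.inl 0, Sum.inl 1, Sum.inr 0, Sum.inr 1] ?_ ?_ (h1.add _ _ _ _ hK hK)
    · decide
    · intro a b hab
      rcases hab with ⟨rfl, rfl⟩ | ⟨rfl, rfl⟩ | ⟨rfl, rfl⟩ | ⟨rfl, rfl⟩ <;>
        simp [SimpleGraph.sum_adj]
  obtain ⟨A, hA1, hA2, -⟩ := gadget_core diamond twoK2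
    (by decide) (fun m => hI _ _ (gad_mem h1 h2 hE hD m))
  have a1 := hA1 0 1 (by decide)
  have a2 := hA1 2 3 (by decide)
  have b1 := hA2 0 2 (by decide)
  have b2 := hA2 0 3 (by decide)
  have b3 := hA2 1 2 (by decide)
  have b4 := hA2 1 3 (by decide)
  tauto

/-! the 12-vertex outerplanar graph -/

def L12 : List (Fin 12 × Fin 12) := [(0,1),(1,2),(2,3),(3,4),(4,5),(5,6),(6,7),(7,8),(8,9),(9,10),
  (10,11),(11,0),(0,2),(2,4),(4,6),(6,8),(8,10),(10,0),(0,4),(4,8),(8,0)]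

def G12 : SimpleGraph (Fin 12) where
  Adj a b := (a, b) ∈ L12 ∨ (b, a) ∈ L12
  symm := ⟨fun a b h => h.symm⟩
  loopless := ⟨fun a h => by revert a; decide⟩

instance : DecidableRel G12.Adj := fun a b =>
  inferInstanceAs (Decidable ((a, b) ∈ L12 ∨ (b, a) ∈ L12))

def dia : List (Fin 12 × Fin 12 × Fin 12 × Fin 12) :=
  [(0,4,8,2),(4,8,0,6),(8,0,4,10),(0,2,4,1),(2,4,0,3),(4,6,8,5),(6,8,4,7),(8,10,0,9),(10,0,8,11)]

def six : List (Fin 12 × Fin 12 × Fin 12 × Fin 12 × Fin 12 × Fin 12) :=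
  [(0,2,4,6,8,10),(0,1,2,3,4,8),(4,5,6,7,8,0),(8,9,10,11,0,4)]

lemma dia_ok : ∀ d ∈ dia, G12.Adj d.1 d.2.1 ∧ G12.Adj d.1 d.2.2.1 ∧ G12.Adj d.1 d.2.2.2 ∧
    G12.Adj d.2.1 d.2.2.1 ∧ G12.Adj d.2.1 d.2.2.2 ∧ d.2.2.1 ≠ d.2.2.2 := by
  intro d hd
  fin_cases hd <;> decide

lemma six_ok : ∀ d ∈ six, G12.Adj d.1 d.2.1 ∧ G12.Adj d.2.1 d.2.2.1 ∧ G12.Adj d.2.2.1 d.2.2.2.1 ∧
    G12.Adj d.2.2.2.1 d.2.2.2.2.1 ∧ G12.Adj d.2.2.2.2.1 d.2.2.2.2.2 ∧ G12.Adj d.2.2.2.2.2 d.1 ∧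
    d.1 ≠ d.2.2.1 ∧ d.2.1 ≠ d.2.2.2.2.2 ∧ d.1 ≠ d.2.2.2.2.1 ∧ d.2.1 ≠ d.2.2.2.1 ∧
    d.1 ≠ d.2.2.2.1 := by
  intro d hd
  fin_cases hd <;> decide

def check (c : Fin 12 → Bool) : Bool :=
  dia.any (fun d => c d.1 == c d.2.1 && c d.2.2.1 == c d.2.2.2) ||
  six.any (fun d => c d.1 != c d.2.1 && c d.2.1 != c d.2.2.1 && c d.2.2.1 != c d.2.2.2.1 &&
    c d.2.2.2.1 != c d.2.2.2.2.1 && c d.2.2.2.2.1 != c d.2.2.2.2.2 && c d.2.2.2.2.2 != c d.1)

lemma check_all' : ∀ a0 a1 a2 a3 a4 a5 a6 a7 a8 a9 a10 a11 : Bool,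
    check ![a0, a1, a2, a3, a4, a5, a6, a7, a8, a9, a10, a11] = true := by
  decide +kernel

lemma check_all (c : Fin 12 → Bool) : check c = true := by
  have : c = ![c 0, c 1, c 2, c 3, c 4, c 5, c 6, c 7, c 8, c 9, c 10, c 11] := by
    funext i; fin_cases i <;> rfl
  rw [this]; exact check_all' _ _ _ _ _ _ _ _ _ _ _ _

lemma outer12 : Outerplanar (Fin 12) G12 := by
  refine ⟨fun i => i.val, Fin.val_injective, ?_⟩
  have : ∀ p ∈ L12, ∀ q ∈ L12, ¬ ((p.1 < q.1 ∧ q.1 < p.2 ∧ p.2 < q.2) ∨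
      (p.2 < q.1 ∧ q.1 < p.1 ∧ p.1 < q.2) ∨ (p.1 < q.2 ∧ q.2 < p.2 ∧ p.2 < q.1) ∨
      (p.2 < q.2 ∧ q.2 < p.1 ∧ p.1 < q.1)) := by decide +kernel
  intro a b c d hab hcd h
  rcases hab with hab | hab <;> rcases hcd with hcd | hcd
  · exact this _ hab _ hcd (Or.inl h)
  · exact this _ hab _ hcd (Or.inr (Or.inr (Or.inl h)))
  · exact this _ hab _ hcd (Or.inr (Or.inl h))
  · exact this _ hab _ hcd (Or.inr (Or.inr (Or.inr h)))

lemma mono_diamond (S : Set (Fin 12)) (hS : (cross G12 S).IsAcyclic) :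
    ∃ g : Fin 4 → Fin 12, Function.Injective g ∧ (∀ a b, diamond.Adj a b → G12.Adj (g a) (g b)) ∧
      ((∀ i, g i ∈ S) ∨ (∀ i, g i ∉ S)) := by
  classical
  have h := check_all (fun i => decide (i ∈ S))
  unfold check at h
  rw [Bool.or_eq_true] at h
  rcases h with h | h
  · rw [List.any_eq_true] at h
    obtain ⟨d, hd, h⟩ := h
    simp only [Bool.and_eq_true, beq_iff_eq, decide_eq_decide] at h
    obtain ⟨o1, o2, o3, o4, o5, o6⟩ := dia_ok d hd
    by_cases hm : (d.1 ∈ S ↔ d.2.2.1 ∈ S)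
    · refine ⟨![d.1, d.2.1, d.2.2.1, d.2.2.2], ?_, ?_, ?_⟩
      · intro a b hab
        have n1 := o1.ne
        have n2 := o2.ne
        have n3 := o3.ne
        have n4 := o4.ne
        have n5 := o5.ne
        fin_cases a <;> fin_cases b <;>
          first
          | rfl
          | exact absurd hab n1 | exact absurd hab n2 | exact absurd hab n3
          | exact absurd hab n4 | exact absurd hab n5 | exact absurd hab o6
          | exact absurd hab.symm n1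
          | exact absurd hab.symm n2 | exact absurd hab.symm n3
          | exact absurd hab.symm n4 | exact absurd hab.symm n5 | exact absurd hab.symm o6
      · intro a b hab
        fin_cases a <;> fin_cases b <;>
          first
          | exact absurd hab (by decide)
          | exact o1 | exact o2 | exact o3 | exact o4 | exact o5
          | exact o1.symm | exact o2.symm | exact o3.symm | exact o4.symm | exact o5.symm
      · by_cases h0 : d.1 ∈ S
        · left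
          have h2 := hm.mp h0
          have h3 := h.2.mp h2
          have h1 := h.1.mp h0
          intro i; fin_cases i <;> assumption
        · right
          have h2 : d.2.2.1 ∉ S := fun h' => h0 (hm.mpr h')
          have h3 : d.2.2.2 ∉ S := fun h' => h2 (h.2.mpr h')
          have h1 : d.2.1 ∉ S := fun h' => h0 (h.1.mpr h')
          intro i; fin_cases i <;> assumption
    · exfalso
      refine no_cyc4 hS (a := d.1) (b := d.2.2.1) (c := d.2.1) (d := d.2.2.2) ⟨o2, ?_⟩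
        ⟨o4.symm, ?_⟩ ⟨o5, ?_⟩ ⟨o3.symm, ?_⟩ o1.ne o6 <;> tauto
  · rw [List.any_eq_true] at h
    obtain ⟨d, hd, h⟩ := h
    simp only [Bool.and_eq_true, bne_iff_ne, ne_eq, decide_eq_decide] at h
    obtain ⟨o1, o2, o3, o4, o5, o6, o7, o8, o9, o10, o11⟩ := six_ok d hd
    obtain ⟨⟨⟨⟨⟨h1, h2⟩, h3⟩, h4⟩, h5⟩, h6⟩ := h
    exfalso
    exact no_cyc6 hS ⟨o1, by tauto⟩ ⟨o2, by tauto⟩ ⟨o3, by tauto⟩ ⟨o4, by tauto⟩ ⟨o5, by tauto⟩
      ⟨o6, by tauto⟩ o7 o8 o9 o10 o11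

lemma cross_compl {V : Type} (G : SimpleGraph V) (S : Set V) : cross G Sᶜ = cross G S := by
  ext a b
  change (G.Adj a b ∧ (a ∉ S ↔ ¬ b ∉ S)) ↔ (G.Adj a b ∧ (a ∈ S ↔ b ∉ S))
  tauto

lemma prod_symm {P₁ P₂ : GProp} (h1 : InLa P₁) : Incl (AProd P₁ P₂) (AProd P₂ P₁) := by
  intro V _ G h
  obtain ⟨S, hS1, hS2, hS3⟩ := h
  refine ⟨Sᶜ, hS2, ?_, ?_⟩
  · refine h1.of_iso (G := G.induce S) (fun x => ⟨x.1, by simpa using x.2⟩) ?_ ?_ hS1
    · rintro ⟨a, ha⟩ ⟨b, hb⟩ hab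
      simp only [Subtype.mk.injEq] at hab
      exact Subtype.ext hab
    · intro a b hab
      exact hab
  · rw [cross_compl]; exact hS3

lemma not_both_K2 {P₁ P₂ : GProp} (h1 : InLa P₁) (h2 : InLa P₂) (hK1 : P₁ (Fin 2) ⊤)
    (hK2 : P₂ (Fin 2) ⊤) (hT : Incl Outerplanar (AProd P₁ P₂))
    (hI : Incl (AProd P₁ P₂) (AProd Edgeless FanSub)) : False := by
  obtain ⟨S, hS1, hS2, hS3⟩ := hT _ _ outer12
  obtain ⟨g, hg, hadj, hm⟩ := mono_diamond S hS3
  rcases hm with hm | hm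
  · have hD : P₁ (Fin 4) diamond := by
      refine h1.of_iso (G := G12.induce S) (fun i => ⟨g i, hm i⟩) ?_ ?_ hS1
      · intro a b hab
        exact hg (congrArg Subtype.val hab)
      · intro a b hab
        exact hadj a b hab
    refine no_K2_diamond h2 h1 hK2 hD ?_
    intro V _ G hG
    exact hI _ _ (prod_symm h2 _ _ hG)
  · have hD : P₂ (Fin 4) diamond := by
      refine h2.of_iso (G := G12.induce Sᶜ) (fun i => ⟨g i, hm i⟩) ?_ ?_ hS2
      · intro a b hab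
        exact hg (congrArg Subtype.val hab)
      · intro a b hab
        exact hadj a b hab
    exact no_K2_diamond h1 h2 hK1 hD hI

end Pool.Agent.R204.OP
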