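import Pool.Agent.R204.OP.Basic

namespace Pool.Agent.R204.OP

lemma InLa.of_iso {P : GProp} (h : InLa P) {V W : Type} [Finite V] [Finite W] {G : SimpleGraph V}
    {H : SimpleGraph W} (f : W → V) (hf : Function.Injective f)
    (hadj : ∀ a b, H.Adj a b → G.Adj (f a) (f b)) (hG : P V G) : P W H :=
  h.hered V W G H f hf hadj hG

lemma inLa_edgeless : InLa Edgeless where
  hered := by
    intro V W _ _ G H f hf hadj hG
    change G = ⊥ at hG
    change H = ⊥
    subst hG
    ext a b
    simp only [SimpleGraph.bot_adj, iff_false]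
    intro h
    exact hadj a b h
  add := by
    intro V W _ _ G H hG hH
    change G = ⊥ at hG
    change H = ⊥ at hH
    change (G ⊕g H) = ⊥
    subst hG hH
    ext a b
    rcases a with a | a <;> rcases b with b | b <;> simp

lemma nontriv_edgeless : Nontriv Edgeless := by
  refine ⟨rfl, Bool, inferInstance, ⊤, ?_⟩
  intro h
  have h' : (⊤ : SimpleGraph Bool) = ⊥ := h
  have : (⊤ : SimpleGraph Bool).Adj true false := by simp
  rw [h'] at this
  exact this

lemma U_append {x y : List ℤ} (a : List ℤ) (h : U.Adj x y) : U.Adj (x ++ a) (y ++ a) := by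
  rcases h with ⟨n, rfl⟩ | ⟨n, rfl⟩ | ⟨w, n, rfl, rfl⟩ | ⟨w, n, rfl, rfl⟩
  · left; exact ⟨n, by simp⟩
  · right; left; exact ⟨n, by simp⟩
  · right; right; left; exact ⟨w ++ a, n, by simp, by simp⟩
  · right; right; right; exact ⟨w ++ a, n, by simp, by simp⟩

lemma inLa_fanSub : InLa FanSub where
  hered := by
    intro V W _ _ G H f hf hadj hG
    obtain ⟨g, hg, hgadj⟩ := hG
    exact ⟨g ∘ f, hg.comp hf, fun a b h => hgadj _ _ (hadj _ _ h)⟩
  add := by
    intro V W _ _ G H hG hH
    obtain ⟨g, hg, hgadj⟩ := hG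
    obtain ⟨h, hh, hhadj⟩ := hH
    refine ⟨Sum.elim (fun v => g v ++ [0]) (fun w => h w ++ [1]), ?_, ?_⟩
    · rintro (a | a) (b | b) hab
      · simp only [Sum.elim_inl, List.append_cancel_right_eq] at hab
        rw [hg hab]
      · exfalso
        simp only [Sum.elim_inl, Sum.elim_inr] at hab
        have := (List.append_inj' hab rfl).2
        simp at this
      · exfalso
        simp only [Sum.elim_inl, Sum.elim_inr] at hab
        have := (List.append_inj' hab rfl).2
        simp at this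
      · simp only [Sum.elim_inr, List.append_cancel_right_eq] at hab
        rw [hh hab]
    · rintro (a | a) (b | b) hab
      · simp only [SimpleGraph.sum_adj] at hab
        exact U_append [0] (hgadj _ _ hab)
      · simp [SimpleGraph.sum_adj] at hab
      · simp [SimpleGraph.sum_adj] at hab
      · simp only [SimpleGraph.sum_adj] at hab
        exact U_append [1] (hhadj _ _ hab)

lemma nontriv_fanSub : Nontriv FanSub := by
  refine ⟨⟨fun _ => [], fun a b _ => rfl, fun a b h => absurd h (by simp)⟩, Fin 4, inferInstance,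
    ⊤, ?_⟩
  rintro ⟨f, hf, hadj⟩
  have e : ∀ i j : Fin 4, i ≠ j → U.Adj (f i) (f j) := fun i j hij => hadj i j (by simpa using hij)
  have n : ∀ i j : Fin 4, i ≠ j → f i ≠ f j := fun i j hij h => hij (hf h)
  have t1 := U_tri (e 0 1 (by decide)) (e 0 2 (by decide)) (e 1 2 (by decide))
  have t2 := U_tri (e 0 1 (by decide)) (e 0 3 (by decide)) (e 1 3 (by decide))
  have t3 := U_tri (e 0 2 (by decide)) (e 0 3 (by decide)) (e 2 3 (by decide))
  have t4 := U_tri (e 1 2 (by decide)) (e 1 3 (by decide)) (e 2 3 (by decide))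
  have n1 := n 0 1 (by decide)
  have n2 := n 0 2 (by decide)
  have n3 := n 0 3 (by decide)
  have n4 := n 1 2 (by decide)
  have n5 := n 1 3 (by decide)
  have n6 := n 2 3 (by decide)
  generalize f 0 = a at *
  generalize f 1 = b at *
  generalize f 2 = c at *
  generalize f 3 = d at *
  clear e n hadj hf
  unfold Top at t1 t2 t3 t4
  have lem : ∀ {x y : List ℤ} {k : ℤ}, x = k :: y → x.length = y.length + 1 := by
    intro x y k h; rw [h]; simp
  rcases t1 with ⟨k1, k2, e1, e2⟩ | ⟨k1, k2, e1, e2⟩ | ⟨k1, k2, e1, e2⟩ <;>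
  rcases t2 with ⟨k3, k4, e3, e4⟩ | ⟨k3, k4, e3, e4⟩ | ⟨k3, k4, e3, e4⟩ <;>
  rcases t3 with ⟨k5, k6, e5, e6⟩ | ⟨k5, k6, e5, e6⟩ | ⟨k5, k6, e5, e6⟩ <;>
  rcases t4 with ⟨k7, k8, e7, e8⟩ | ⟨k7, k8, e7, e8⟩ | ⟨k7, k8, e7, e8⟩ <;>
  have l1 := lem e1 <;> have l2 := lem e2 <;> have l3 := lem e3 <;> have l4 := lem e4 <;>
  have l5 := lem e5 <;> have l6 := lem e6 <;> have l7 := lem e7 <;> have l8 := lem e8 <;>
  omega

lemma inLa_prod {P₁ P₂ : GProp} (h1 : InLa P₁) (h2 : InLa P₂) : InLa (AProd P₁ P₂) where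
  hered := by
    intro V W _ _ G H f hf hadj hG
    obtain ⟨S, hS1, hS2, hS3⟩ := hG
    refine ⟨f ⁻¹' S, ?_, ?_, ?_⟩
    · refine h1.of_iso (G := G.induce S) (fun x => ⟨f x.1, x.2⟩) ?_ ?_ hS1
      · intro a b hab
        simp only [Subtype.mk.injEq] at hab
        exact Subtype.ext (hf hab)
      · intro a b hab
        exact hadj _ _ hab
    · refine h2.of_iso (G := G.induce Sᶜ) (fun x => ⟨f x.1, x.2⟩) ?_ ?_ hS2
      · intro a b hab
        simp only [Subtype.mk.injEq] at hab
        exact Subtype.ext (hf hab)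
      · intro a b hab
        exact hadj _ _ hab
    · refine SimpleGraph.IsAcyclic.comap (G' := cross G S) ⟨f, ?_⟩ hf hS3
      intro a b hab
      exact ⟨hadj _ _ hab.1, hab.2⟩
  add := by
    intro V W _ _ G H hG hH
    obtain ⟨S, hS1, hS2, hS3⟩ := hG
    obtain ⟨T, hT1, hT2, hT3⟩ := hH
    refine ⟨{x | Sum.elim (fun v => v ∈ S) (fun w => w ∈ T) x}, ?_, ?_, ?_⟩
    · refine h1.of_iso (G := (G.induce S) ⊕g (H.induce T))
        (fun x => match x with
          | ⟨Sum.inl v, hv⟩ => Sum.inl ⟨v, hv⟩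
          | ⟨Sum.inr v, hv⟩ => Sum.inr ⟨v, hv⟩) ?_ ?_ (h1.add _ _ _ _ hS1 hT1)
      · rintro ⟨a | a, ha⟩ ⟨b | b, hb⟩ hab
        · have h3 : a = b := congrArg Subtype.val (Sum.inl.inj hab)
          subst h3; rfl
        · simp at hab
        · simp at hab
        · have h3 : a = b := congrArg Subtype.val (Sum.inr.inj hab)
          subst h3; rfl
      · rintro ⟨a | a, ha⟩ ⟨b | b, hb⟩ hab
        · simpa [SimpleGraph.sum_adj] using hab
        · simp [SimpleGraph.sum_adj] at hab
        · simp [SimpleGraph.sum_adj] at hab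
        · simpa [SimpleGraph.sum_adj] using hab
    · refine h2.of_iso (G := (G.induce Sᶜ) ⊕g (H.induce Tᶜ))
        (fun x => match x with
          | ⟨Sum.inl v, hv⟩ => Sum.inl ⟨v, hv⟩
          | ⟨Sum.inr v, hv⟩ => Sum.inr ⟨v, hv⟩) ?_ ?_ (h2.add _ _ _ _ hS2 hT2)
      · rintro ⟨a | a, ha⟩ ⟨b | b, hb⟩ hab
        · have h3 : a = b := congrArg Subtype.val (Sum.inl.inj hab)
          subst h3; rfl
        · simp at hab
        · simp at hab
        · have h3 : a = b := congrArg Subtype.val (Sum.inr.inj hab)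
          subst h3; rfl
      · rintro ⟨a | a, ha⟩ ⟨b | b, hb⟩ hab
        · simpa [SimpleGraph.sum_adj] using hab
        · simp [SimpleGraph.sum_adj] at hab
        · simp [SimpleGraph.sum_adj] at hab
        · simpa [SimpleGraph.sum_adj] using hab
    · apply acyclic_sum hS3 hT3
      · intro a b hab
        exact hab
      · intro a b hab
        exact hab
      · intro a b hab
        have := hab.1
        simp [SimpleGraph.sum_adj] at this

end Pool.Agent.R204.OP
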