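import Pool.Agent.R204.OP.Outer

namespace Pool.Agent.R204.OP

open Set

lemma Ext.cast {V : Type*} {X : V → V → Prop} {A B A' B' : Set V} (h : Ext X A B) (hA : A = A')
    (hB : B = B') : Ext X A' B' := by
  subst hA hB; exact h

lemma U_child (n : ℤ) (w : List ℤ) : U.Adj w (n :: w) := Or.inl ⟨n, rfl⟩

lemma U_sib {n m : ℤ} (w : List ℤ) (h : m = n + 1 ∨ n = m + 1) : U.Adj (n :: w) (m :: w) := by
  rcases h with rfl | rfl
  · exact Or.inr (Or.inr (Or.inl ⟨w, n, rfl, rfl⟩))
  · exact Or.inr (Or.inr (Or.inr ⟨w, m, rfl, rfl⟩))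

lemma mem_aux {b x r : ℕ} {I : Set ℕ} (h : b ∈ insert x (insert r I))
    (h' : b ∉ ({x, r} : Set ℕ)) : b ∈ I := by
  rcases h with rfl | rfl | h
  · exact absurd (by simp) h'
  · exact absurd (by simp) h'
  · exact h

lemma seq1 (x y r : ℕ) : ({x, r} : Set ℕ) ∪ {y} = insert r {x, y} := by
  ext z; simp only [Set.mem_union, Set.mem_insert_iff, Set.mem_singleton_iff]; tauto

lemma seq2 (x y r : ℕ) (I : Set ℕ) :
    ({y, r} : Set ℕ) ∪ insert x I = insert x (insert r I) ∪ {y} := by
  ext z; simp only [Set.mem_union, Set.mem_insert_iff, Set.mem_singleton_iff]; tauto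

lemma seq3 (x y r : ℕ) (I₁ I₂ : Set ℕ) :
    insert y (insert r I₂) ∪ insert x I₁ = insert x (insert y (I₁ ∪ insert r I₂)) := by
  ext z; simp only [Set.mem_union, Set.mem_insert_iff]; tauto

lemma seq4 (x y r : ℕ) (I₁ I₂ : Set ℕ) :
    insert x (insert r I₁) ∪ insert y I₂ = insert x (insert y (I₁ ∪ insert r I₂)) := by
  ext z; simp only [Set.mem_union, Set.mem_insert_iff]; tauto

lemma seq5 (x y r : ℕ) (I : Set ℕ) :
    ({r, y} : Set ℕ) ∪ insert x I = insert y (insert r (insert x I)) := by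
  ext z; simp only [Set.mem_union, Set.mem_insert_iff, Set.mem_singleton_iff]; tauto

lemma seq6 (x y r : ℕ) (I₁ I₂ : Set ℕ) :
    insert r (insert y I₂) ∪ insert x I₁ = insert x (insert y (I₁ ∪ insert r I₂)) := by
  ext z; simp only [Set.mem_union, Set.mem_insert_iff]; tauto

lemma cut_step {G : SimpleGraph ℕ} {x y r : ℕ} {I₁ I₂ : Set ℕ} (N : Node G x y r I₁ I₂)
    (hC : CUT G x r I₁) (hF : FE G y r I₂) : CUT G x y (I₁ ∪ insert r I₂) := by
  classical
  intro S f σ hx hy hσ
  have hrx := N.xr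
  have hry := N.yr
  obtain ⟨S2, f2, ha2, g2⟩ := hC (S \ {r}) (Function.update f r (σ :: f y)) (-1)
    ⟨hx, by simpa using N.xr⟩ (by simp) (Or.inr rfl)
  have hy2 := ha2 y N.y1
  have hr2 := ha2 r N.r1
  have hx2 := ha2 x N.x1
  simp only [Set.mem_sdiff, Set.mem_singleton_iff, hry, not_false_eq_true, and_true,
    Function.update_of_ne (Ne.symm (Ne.symm hry)), not_true_eq_false, and_false,
    Function.update_self, hrx, Function.update_of_ne (Ne.symm (Ne.symm hrx))] at hy2 hr2 hx2
  have hσσ : 0 < σ * σ := by rcases hσ with rfl | rfl <;> norm_num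
  obtain ⟨S3, f3, ha3, g3⟩ := hF S2 f2 σ 1 σ (fun h => hy (hy2.1.mp h)) (fun h => hr2.1.mp h) hσ
    (Or.inl rfl) (by rw [hr2.2, hy2.2]) hσσ
  have hy3 := ha3 y N.y2
  have hr3 := ha3 r N.r2
  have hx3 := ha3 x N.x2
  have hagr1 : ∀ v ∈ insert x (insert r I₁), (v ∈ S3 ↔ v ∈ S2) ∧ f3 v = f2 v := by
    intro v hv
    apply ha3
    rcases hv with rfl | rfl | hv
    · exact N.x2
    · exact N.r2
    · exact N.dis v hv
  have g2' := g2.transfer hagr1
  have fy : f3 y = f y := hy3.2.trans hy2.2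
  have fr : f3 r = σ :: f y := hr3.2.trans hr2.2
  have hxS : x ∈ S3 := hx3.1.mpr (hx2.1.mpr hx)
  have hyS : y ∉ S3 := fun h => hy (hy2.1.mp (hy3.1.mp h))
  have hrS : r ∉ S3 := fun h => hr2.1.mp (hr3.1.mp h)
  refine ⟨S3, f3, ?_, ?_⟩
  · intro v hv
    simp only [Set.mem_union, Set.mem_insert_iff, not_or] at hv
    have h1 := ha3 v hv.2.2
    have h2 := ha2 v hv.1
    simp only [Set.mem_sdiff, Set.mem_singleton_iff, hv.2.1, not_false_eq_true, and_true,
      Function.update_of_ne hv.2.1] at h2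
    exact ⟨h1.1.trans h2.1, h1.2.trans h2.2⟩
  · rw [Function.update_self] at g2'
    rw [hy2.2, hr2.2] at g3
    refine glue N g2' g3 (D_child (by simpa using hσσ)) ?_ ?_ ?_ ?_ ?_
    · apply Set.union_subset
      · exact D_mono (by simpa using hσσ.le)
      · exact D_child (by simpa using hσσ)
    · intro u h1 h2
      rcases h2 with h2 | h2
      · have := D_dis1 h1 h2
        omega
      · exact D_dis3 h2 h1
    · intro _
      rw [fr]
      refine ⟨D_self (by simpa using hσσ), D_dis4, ?_⟩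
      rintro (h | h)
      · have := D_dis5 h; omega
      · exact D_dis4 h
    · exact ⟨fun h => hyS h.2, fun h => absurd hxS h⟩
    · have e0 : Ext (XA G S3) {x, y} (insert r {x, y}) := by
        refine Ext.add r Ext.refl ?_
        have : ∀ a ∈ ({x, y} : Set ℕ), XA G S3 r a → a = x := by
          rintro a (rfl | rfl) h
          · rfl
          · exact absurd (h.2.mpr hyS) hrS
        intro a ha b hb h1 h2
        rw [this a ha h1, this b hb h2]
      have e1 := g2'.ext.union {y} (by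
        intro b hb hb' c hc hc' h
        rw [Set.mem_singleton_iff] at hc
        subst hc
        have := (N.sep b (Set.mem_insert_of_mem _ (mem_aux hb hb')) c (by simp) h.1).1
        apply hb'; rw [this]; simp)
      have e2 := g3.ext.union (insert x I₁) (by
        intro b hb hb' c hc hc' h
        have := (N.sep c hc b (Set.mem_insert_of_mem _ (mem_aux hb hb')) h.1.symm).2
        apply hb'; rw [this]; simp)
      exact e0.trans ((e1.cast (seq1 _ _ _) rfl).trans (e2.cast (seq2 _ _ _ _) (seq3 _ _ _ _ _)))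

lemma fe_step {G : SimpleGraph ℕ} {x y r : ℕ} {I₁ I₂ : Set ℕ} (N : Node G x y r I₁ I₂)
    (hF : FE G x r I₁) (hR : RE G y r I₂) : FE G x y (I₁ ∪ insert r I₂) := by
  classical
  intro S f σ τ j hx hy hσ hτ hfy hj
  have hrx := N.xr
  have hry := N.yr
  have hσσ : σ * σ = 1 := by rcases hσ with rfl | rfl <;> norm_num
  obtain ⟨S2, f2, ha2, g2⟩ := hR (S \ {r}) (Function.update f r ((j + σ) :: f x)) τ (-1) j (j + σ)
    (f x) (fun h => hy h.1) (by simp) hτ (Or.inr rfl)
    (by rw [Function.update_of_ne hry]; exact hfy) (by rw [Function.update_self])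
    (by rcases hσ with rfl | rfl <;> [left; right] <;> ring)
  have hy2 := ha2 y N.y2
  have hr2 := ha2 r N.r2
  have hx2 := ha2 x N.x2
  simp only [Set.mem_sdiff, Set.mem_singleton_iff, hry, not_false_eq_true, and_true,
    Function.update_of_ne (Ne.symm (Ne.symm hry)), not_true_eq_false, and_false,
    Function.update_self, hrx, Function.update_of_ne (Ne.symm (Ne.symm hrx))] at hy2 hr2 hx2
  have hjσ : 0 < (j + σ) * σ := by rw [add_mul, hσσ]; omega
  obtain ⟨S3, f3, ha3, g3⟩ := hF S2 f2 σ 1 (j + σ) (fun h => hx (hx2.1.mp h))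
    (fun h => hr2.1.mp h) hσ (Or.inl rfl) (by rw [hr2.2, hx2.2]) hjσ
  have hy3 := ha3 y N.y1
  have hr3 := ha3 r N.r1
  have hx3 := ha3 x N.x1
  have hagr1 : ∀ v ∈ insert y (insert r I₂), (v ∈ S3 ↔ v ∈ S2) ∧ f3 v = f2 v := by
    intro v hv
    apply ha3
    rcases hv with rfl | rfl | hv
    · exact N.y1
    · exact N.r1
    · exact fun h => N.dis v h hv
  have g2' := g2.transfer hagr1
  have fy : f3 y = f y := hy3.2.trans hy2.2
  have fx : f3 x = f x := hx3.2.trans hx2.2
  have fr : f3 r = (j + σ) :: f x := hr3.2.trans hr2.2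
  have hxS : x ∉ S3 := fun h => hx (hx2.1.mp (hx3.1.mp h))
  have hyS : y ∉ S3 := fun h => hy (hy2.1.mp (hy3.1.mp h))
  have hrS : r ∉ S3 := fun h => hr2.1.mp (hr3.1.mp h)
  refine ⟨S3, f3, ?_, ?_⟩
  · intro v hv
    simp only [Set.mem_union, Set.mem_insert_iff, not_or] at hv
    have h1 := ha3 v hv.1
    have h2 := ha2 v hv.2.2
    simp only [Set.mem_sdiff, Set.mem_singleton_iff, hv.2.1, not_false_eq_true, and_true,
      Function.update_of_ne hv.2.1] at h2
    exact ⟨h1.1.trans h2.1, h1.2.trans h2.2⟩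
  · rw [Function.update_self, Function.update_of_ne hry] at g2'
    rw [hx2.2, hr2.2] at g3
    have hlt : j * σ < (j + σ) * σ := by rw [add_mul, hσσ]; omega
    refine glue N g3 g2' ?_ ?_ ?_ ?_ ?_ ?_
    · apply Set.union_subset
      · exact (D_mono hlt.le).trans Set.subset_union_left
      · exact (D_child hlt).trans Set.subset_union_left
    · apply Set.union_subset
      · exact Set.subset_union_right
      · exact (D_child hlt).trans Set.subset_union_left
    · rw [hfy]
      rintro u (h1 | h1) (h2 | h2)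
      · have := D_dis1 h2 h1
        omega
      · have := D_dis1 h2 h1
        omega
      · have := D_dis2 h1 h2
        rcases hσ with rfl | rfl <;> omega
      · exact D_dis3 h1 h2
    · intro _
      rw [fr]
      refine ⟨Or.inl (D_self hlt), ?_, ?_⟩
      · rintro (h | h)
        · have := D_dis5 h; omega
        · exact D_dis4 h
      · rw [hfy]
        rintro (h | h)
        · exact D_dis4 h
        · exact D_dis4 h
    · refine ⟨fun h => hyS h.2, fun _ _ => ?_⟩
      rw [fx, fy, hfy]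
      exact U_child _ _
    · have e1 := g2'.ext.union {x} (by
        intro b hb hb' c hc hc' h
        rw [Set.mem_singleton_iff] at hc
        subst hc
        rcases hb with rfl | rfl | hb
        · exact hb' rfl
        · exact hrS (h.2.mpr hxS)
        · exact hb' ((N.sep c (by simp) b (by simp [hb]) h.1.symm).2))
      have e2 := g3.ext.union (insert y I₂) (by
        intro b hb hb' c hc hc' h
        have := (N.sep b (Set.mem_insert_of_mem _ (mem_aux hb hb')) c hc h.1).1
        apply hb'; rw [this]; simp)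
      refine (e1.cast (A' := {x, y}) ?_ rfl).trans (e2.cast (seq2 _ _ _ _) (seq4 _ _ _ _ _))
      rw [Set.pair_comm]; rfl

lemma re_step {G : SimpleGraph ℕ} {x y r : ℕ} {I₁ I₂ : Set ℕ} (N : Node G x y r I₁ I₂)
    (hC1 : CUT G r x I₁) (hC2 : CUT G r y I₂) : RE G x y (I₁ ∪ insert r I₂) := by
  classical
  intro S f σ τ n m w hx hy hσ hτ hfx hfy hnm
  have hrx := N.xr
  have hry := N.yr
  obtain ⟨S2, f2, ha2, g2⟩ := hC1 (insert r S) f σ (by simp) (by simp [hx, hrx]) hσ
  have hy2 := ha2 y N.y1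
  have hr2 := ha2 r N.r1
  have hx2 := ha2 x N.x1
  simp only [Set.mem_insert_iff, hry, hrx, false_or, true_or] at hy2 hr2 hx2
  obtain ⟨S3, f3, ha3, g3⟩ := hC2 S2 f2 τ (hr2.1.mpr trivial) (fun h => hy (hy2.1.mp h)) hτ
  have hy3 := ha3 y N.y2
  have hr3 := ha3 r N.r2
  have hx3 := ha3 x N.x2
  have hagr1 : ∀ v ∈ insert r (insert x I₁), (v ∈ S3 ↔ v ∈ S2) ∧ f3 v = f2 v := by
    intro v hv
    apply ha3
    rcases hv with rfl | rfl | hv
    · exact N.r2
    · exact N.x2
    · exact N.dis v hv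
  have g2' := g2.transfer hagr1
  have fy : f3 y = f y := hy3.2.trans hy2.2
  have fx : f3 x = f x := hx3.2.trans hx2.2
  have hxS : x ∉ S3 := fun h => hx (hx2.1.mp (hx3.1.mp h))
  have hyS : y ∉ S3 := fun h => hy (hy2.1.mp (hy3.1.mp h))
  have hrS : r ∈ S3 := hr3.1.mpr (hr2.1.mpr trivial)
  refine ⟨S3, f3, ?_, ?_⟩
  · intro v hv
    simp only [Set.mem_union, Set.mem_insert_iff, not_or] at hv
    have h1 := ha3 v hv.2.2
    have h2 := ha2 v hv.1
    simp only [Set.mem_insert_iff, hv.2.1, false_or] at h2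
    exact ⟨h1.1.trans h2.1, h1.2.trans h2.2⟩
  · rw [hy2.2] at g3
    refine glue N g2'.swap g3.swap ?_ ?_ ?_ ?_ ?_ ?_
    · exact Set.subset_union_left
    · exact Set.subset_union_right
    · rw [hfx, hfy]
      intro u h1 h2
      have := D_dis2 h1 h2
      omega
    · intro h; exact absurd hrS h
    · refine ⟨fun h => hyS h.2, fun _ _ => ?_⟩
      rw [fx, fy, hfx, hfy]
      exact U_sib w hnm
    · have e0 : Ext (XA G S3) {x} (insert r {x}) := by
        refine Ext.add r Ext.refl ?_
        intro a ha b hb h1 h2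
        rw [Set.mem_singleton_iff] at ha hb
        rw [ha, hb]
      have e1 := g2'.ext
      have e2 : Ext (XA G S3) (insert r (insert x I₁)) (insert y (insert r (insert x I₁))) := by
        refine Ext.add y Ext.refl ?_
        have : ∀ a ∈ insert r (insert x I₁), XA G S3 y a → a = r := by
          rintro a (rfl | rfl | ha) h
          · rfl
          · exact absurd (h.2.mpr hxS) hyS
          · exact absurd ((N.sep a (by simp [ha]) y (by simp) h.1.symm).1) (fun h' => N.x1 (h' ▸ ha))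
        intro a ha b hb h1 h2
        rw [this a ha h1, this b hb h2]
      have e3 := g3.ext.union (insert x I₁) (by
        intro b hb hb' c hc hc' h
        have := (N.sep c hc b (Set.mem_insert_of_mem _ (mem_aux hb hb')) h.1.symm).2
        apply hb'; rw [this]; simp)
      exact e0.trans (e1.trans (e2.trans (e3.cast (seq5 _ _ _ _) (seq6 _ _ _ _ _))))

def Psi (G : SimpleGraph ℕ) (x y : ℕ) (I : Set ℕ) : Prop := CUT G x y I ∧ FE G x y I ∧ RE G x y I

lemma psi_empty (G : SimpleGraph ℕ) {x y : ℕ} (hxy : x ≠ y) : Psi G x y ∅ := by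
  have key : ∀ (S : Set ℕ) (f : ℕ → List ℤ) (W : Set (List ℤ)) (A : Set ℕ), EOK S f x y →
      Ext (XA G S) A {x, y} → Good G S f ∅ x y W A := by
    intro S f W A he hE
    refine ⟨by simp, by simp, ?_, by simpa using hE⟩
    intro u hu v hv huv
    simp only [insert_empty_eq, Set.mem_insert_iff, Set.mem_singleton_iff] at hu hv
    rcases hu with rfl | rfl <;> rcases hv with rfl | rfl
    · exact absurd rfl huv.ne
    · exact he
    · exact he.symm
    · exact absurd rfl huv.ne
  refine ⟨?_, ?_, ?_⟩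
  · intro S f σ hx hy hσ
    refine ⟨S, f, fun v _ => ⟨Iff.rfl, rfl⟩, key _ _ _ _ ⟨fun h => hy h.2, fun h => absurd hx h⟩
      Ext.refl⟩
  · intro S f σ τ j hx hy hσ hτ hfy hj
    refine ⟨S, f, fun v _ => ⟨Iff.rfl, rfl⟩, key _ _ _ _ ⟨fun h => hy h.2, fun _ _ => ?_⟩
      Ext.refl⟩
    rw [hfy]; exact U_child _ _
  · intro S f σ τ n m w hx hy hσ hτ hfx hfy hnm
    refine ⟨S, f, fun v _ => ⟨Iff.rfl, rfl⟩, key _ _ _ _ ⟨fun h => hy h.2, fun _ _ => ?_⟩ ?_⟩
    · rw [hfx, hfy]; exact U_sib w hnm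
    · have e : ({x, y} : Set ℕ) = insert y {x} := Set.pair_comm _ _
      rw [e]
      refine Ext.add y Ext.refl ?_
      intro a ha b hb _ _
      rw [Set.mem_singleton_iff] at ha hb
      rw [ha, hb]

lemma psi_step {G : SimpleGraph ℕ} {x y r : ℕ} {I₁ I₂ : Set ℕ} (N : Node G x y r I₁ I₂)
    (h1 : Psi G x r I₁) (h2 : Psi G r x I₁) (h3 : Psi G r y I₂) (h4 : Psi G y r I₂) :
    Psi G x y (I₁ ∪ insert r I₂) :=
  ⟨cut_step N h1.1 h4.2.1, fe_step N h1.2.1 h4.2.2, re_step N h2.1 h3.1⟩

theorem psi_intervals (G : SimpleGraph ℕ)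
    (hG : ∀ a b c d, G.Adj a b → G.Adj c d → ¬ (a < c ∧ c < b ∧ b < d)) :
    ∀ n a b, a < b → b ≤ a + n → Psi G a b (Set.Ioo a b) ∧ Psi G b a (Set.Ioo a b) := by
  classical
  intro n
  induction n with
  | zero => intro a b h1 h2; omega
  | succ n ih =>
    intro a b hab hn
    by_cases hb : b = a + 1
    · have : Set.Ioo a b = ∅ := by
        ext z; simp only [Set.mem_Ioo, Set.mem_empty_iff_false, iff_false]; omega
      rw [this]
      exact ⟨psi_empty G (by omega), psi_empty G (by omega)⟩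
    · obtain ⟨r, har, hrb, hr⟩ : ∃ r, a < r ∧ r < b ∧ (∀ v, r < v → v < b → ¬ G.Adj a v) ∧
          (r = a + 1 ∨ G.Adj a r) := by
        by_cases h : ∃ v, a < v ∧ v < b ∧ G.Adj a v
        · obtain ⟨v, hv1, hv2, hv3⟩ := h
          have hP : ∃ k, (a < b - 1 - k ∧ b - 1 - k < b ∧ G.Adj a (b - 1 - k)) := by
            refine ⟨b - 1 - v, ?_⟩
            have : b - 1 - (b - 1 - v) = v := by omega
            rw [this]; exact ⟨hv1, hv2, hv3⟩
          refine ⟨b - 1 - Nat.find hP, (Nat.find_spec hP).1, (Nat.find_spec hP).2.1, ?_,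
            Or.inr (Nat.find_spec hP).2.2⟩
          intro u hu1 hu2 hu3
          have : Nat.find hP ≤ b - 1 - u := by
            apply Nat.find_min'
            have : b - 1 - (b - 1 - u) = u := by omega
            rw [this]
            exact ⟨by have := (Nat.find_spec hP).1; omega, hu2, hu3⟩
          omega
        · push Not at h
          exact ⟨a + 1, by omega, by omega, fun v h1 h2 => h v (by omega) h2, Or.inl rfl⟩
      have N : Node G a b r (Set.Ioo a r) (Set.Ioo r b) := by
        refine ⟨by omega, by omega, by omega, by simp, by simp, ?_, ?_, by simp, by simp, ?_, ?_⟩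
        · simp only [Set.mem_Ioo, not_and]; omega
        · simp only [Set.mem_Ioo, not_and]; omega
        · intro v; simp only [Set.mem_Ioo, not_and]; omega
        · intro u hu v hv huv
          simp only [Set.mem_insert_iff, Set.mem_Ioo] at hu hv
          by_cases hua : u = a
          · subst hua
            refine ⟨rfl, ?_⟩
            rcases hv with hv | hv
            · exact hv
            · exact absurd huv (hr.1 v hv.1 hv.2)
          · exfalso
            rcases hr.2 with h | h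
            · omega
            · exact hG a r u v h huv ⟨by omega, by omega, by omega⟩
      have i1 := ih a r har (by omega)
      have i2 := ih r b hrb (by omega)
      have e1 : Set.Ioo a b = Set.Ioo a r ∪ insert r (Set.Ioo r b) := by
        ext z; simp only [Set.mem_Ioo, Set.mem_union, Set.mem_insert_iff]; omega
      have e2 : Set.Ioo a b = Set.Ioo r b ∪ insert r (Set.Ioo a r) := by
        ext z; simp only [Set.mem_Ioo, Set.mem_union, Set.mem_insert_iff]; omega
      refine ⟨?_, ?_⟩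
      · rw [e1]; exact psi_step N i1.1 i1.2 i2.1 i2.2
      · rw [e2]; exact psi_step N.symm i2.2 i2.1 i1.2 i1.1

theorem outerplanar_incl : Incl Outerplanar (AProd Edgeless FanSub) := by
  classical
  intro V _ G hG
  obtain ⟨φ, hφ, hcr⟩ := hG
  have := Fintype.ofFinite V
  obtain ⟨B, hB⟩ : ∃ B, ∀ v, φ v < B := by
    refine ⟨(Finset.univ.sup φ) + 1, fun v => ?_⟩
    have : φ v ≤ Finset.univ.sup φ := Finset.le_sup (Finset.mem_univ v)
    omega
  set ψ : V → ℕ := fun v => φ v + 1 with hψ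
  have hψi : Function.Injective ψ := by
    intro a b hab; apply hφ; simp only [hψ] at hab; omega
  let G' : SimpleGraph ℕ :=
    { Adj := fun x y => ∃ a b, G.Adj a b ∧ ψ a = x ∧ ψ b = y
      symm := ⟨fun x y ⟨a, b, h, h1, h2⟩ => ⟨b, a, h.symm, h2, h1⟩⟩
      loopless := ⟨fun x ⟨a, b, h, h1, h2⟩ => h.ne (hψi (h1.trans h2.symm))⟩ }
  have hadj' : ∀ x y, G'.Adj x y ↔ ∃ a b, G.Adj a b ∧ ψ a = x ∧ ψ b = y := fun x y => Iff.rfl
  have hcr' : ∀ a b c d, G'.Adj a b → G'.Adj c d → ¬ (a < c ∧ c < b ∧ b < d) := by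
    intro a b c d h1 h2 h3
    obtain ⟨a', b', h1', rfl, rfl⟩ := (hadj' _ _).mp h1
    obtain ⟨c', d', h2', rfl, rfl⟩ := (hadj' _ _).mp h2
    simp only [hψ] at h3
    exact hcr a' b' c' d' h1' h2' ⟨by omega, by omega, by omega⟩
  obtain ⟨S, f, -, g⟩ := (psi_intervals G' hcr' (B + 1) 0 (B + 1) (by omega) (by omega)).1.1
    {0} (fun _ => []) 1 rfl (by simp) (Or.inl rfl)
  have hmem : ∀ v, ψ v ∈ Set.Ioo 0 (B + 1) := by
    intro v; simp only [hψ, Set.mem_Ioo]; have := hB v; omega
  have hmem' : ∀ v, ψ v ∈ insert 0 (insert (B + 1) (Set.Ioo 0 (B + 1))) := by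
    intro v; exact Set.mem_insert_of_mem _ (Set.mem_insert_of_mem _ (hmem v))
  have hedge : ∀ a b, G.Adj a b → EOK S f (ψ a) (ψ b) := by
    intro a b hab
    exact g.edge _ (hmem' a) _ (hmem' b) ((hadj' _ _).mpr ⟨a, b, hab, rfl, rfl⟩)
  refine ⟨{v | ψ v ∈ S}, ?_, ?_, ?_⟩
  · change G.induce _ = ⊥
    ext ⟨a, ha⟩ ⟨b, hb⟩
    simp only [SimpleGraph.comap_adj, Function.Embedding.subtype_apply, SimpleGraph.bot_adj,
      iff_false]
    intro hab
    exact (hedge a b hab).1 ⟨ha, hb⟩
  · refine ⟨fun v => f (ψ v.1), ?_, ?_⟩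
    · rintro ⟨a, ha⟩ ⟨b, hb⟩ hab
      have := g.inj _ (hmem a) _ (hmem b) ha hb hab
      exact Subtype.ext (hψi this)
    · rintro ⟨a, ha⟩ ⟨b, hb⟩ hab
      exact (hedge a b hab).2 ha hb
  · have hX : (cross G' S).IsAcyclic := by
      intro u c hc
      have hE : Ext (cross G' S).Adj ∅ (insert 0 (insert (B + 1) (Set.Ioo 0 (B + 1)))) := by
        have e0 : Ext (cross G' S).Adj ∅ {0} := by
          have : ({0} : Set ℕ) = insert 0 ∅ := by simp
          rw [this]
          exact Ext.add 0 Ext.refl (by simp)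
        have e1 : Ext (cross G' S).Adj {0} {0, B + 1} := by
          rw [Set.pair_comm]
          refine Ext.add _ Ext.refl ?_
          intro a ha b hb _ _
          rw [Set.mem_singleton_iff] at ha hb
          rw [ha, hb]
        exact e0.trans (e1.trans g.ext)
      apply hE.acyclic c hc
      intro x hx
      have hnil := hc.not_nil
      have hx2 : ∃ y, (cross G' S).Adj x y := by
        have hc' := hc.rotate hx
        exact ⟨_, (c.rotate x hx).adj_snd hc'.not_nil⟩
      obtain ⟨y, hy⟩ := hx2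
      obtain ⟨a, b, -, rfl, -⟩ := (hadj' _ _).mp hy.1
      exact hmem' a
    refine SimpleGraph.IsAcyclic.comap (G' := cross G' S) ⟨ψ, ?_⟩ hψi hX
    intro a b hab
    exact ⟨(hadj' _ _).mpr ⟨a, b, hab.1, rfl, rfl⟩, hab.2⟩

end Pool.Agent.R204.OP
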