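import Pool.Agent.R204.OP.Dyadic
import Pool.Agent.R204.OP.Outer2

namespace Pool.Agent.R204.OP

/-- the words of length at most `k` with letters in `[-K, K]` -/
def Wd (K : ℤ) (k : ℕ) : Set (List ℤ) := {w | w.length ≤ k ∧ ∀ a ∈ w, -K ≤ a ∧ a ≤ K}

lemma U_root {x : List ℤ} {a : ℤ} (h : U.Adj [] (x ++ [a])) : x = [] := by
  rcases h with ⟨n, h⟩ | ⟨n, h⟩ | ⟨w, n, h, h'⟩ | ⟨w, n, h, h'⟩
  · have := congrArg List.length h
    simp at this
    exact this
  · simp at h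
  · simp at h
  · simp at h'

lemma U_last {x y : List ℤ} {a b : ℤ} (h : U.Adj (x ++ [a]) (y ++ [b])) :
    (a = b ∧ U.Adj x y) ∨ (x = [] ∧ y = [] ∧ (b = a + 1 ∨ a = b + 1)) := by
  have key : ∀ {x y : List ℤ} {a b n : ℤ}, y ++ [b] = n :: (x ++ [a]) → b = a ∧ y = n :: x := by
    intro x y a b n h
    have h' : y ++ [b] = (n :: x) ++ [a] := by simpa using h
    have := List.append_inj' h' rfl
    exact ⟨by simpa using this.2, this.1⟩
  rcases h with ⟨n, h⟩ | ⟨n, h⟩ | ⟨w, n, h, h'⟩ | ⟨w, n, h, h'⟩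
  · obtain ⟨rfl, rfl⟩ := key h
    exact Or.inl ⟨rfl, Or.inl ⟨n, rfl⟩⟩
  · obtain ⟨rfl, rfl⟩ := key h
    exact Or.inl ⟨rfl, Or.inr (Or.inl ⟨n, rfl⟩)⟩
  · rcases List.eq_nil_or_concat' w with rfl | ⟨w, c, rfl⟩
    · have h1 : x ++ [a] = [] ++ [n] := h
      have h2 : y ++ [b] = [] ++ [n + 1] := h'
      have e1 := List.append_inj' h1 rfl
      have e2 := List.append_inj' h2 rfl
      have e3 : a = n := by simpa using e1.2
      have e4 : b = n + 1 := by simpa using e2.2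
      exact Or.inr ⟨e1.1, e2.1, Or.inl (by rw [e3, e4])⟩
    · obtain ⟨rfl, rfl⟩ := key h
      obtain ⟨rfl, rfl⟩ := key h'
      exact Or.inl ⟨rfl, Or.inr (Or.inr (Or.inl ⟨w, n, rfl, rfl⟩))⟩
  · rcases List.eq_nil_or_concat' w with rfl | ⟨w, c, rfl⟩
    · have h1 : y ++ [b] = [] ++ [n] := h
      have h2 : x ++ [a] = [] ++ [n + 1] := h'
      have e1 := List.append_inj' h1 rfl
      have e2 := List.append_inj' h2 rfl
      have e3 : b = n := by simpa using e1.2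
      have e4 : a = n + 1 := by simpa using e2.2
      exact Or.inr ⟨e2.1, e1.1, Or.inr (by rw [e3, e4])⟩
    · obtain ⟨rfl, rfl⟩ := key h
      obtain ⟨rfl, rfl⟩ := key h'
      exact Or.inl ⟨rfl, Or.inr (Or.inr (Or.inr ⟨w, n, rfl, rfl⟩))⟩

def GP (n : ℕ) (S : Set ℕ) (K : ℤ) (k p m : ℕ) (g : List ℤ → ℕ) : Prop :=
  g [] = p ∧ (∀ w ∈ Wd K k, p ≤ g w ∧ g w < p + 2 ^ m ∧ g w ∉ S) ∧
  (∀ x ∈ Wd K k, ∀ y ∈ Wd K k, g x = g y → x = y) ∧
  (∀ x ∈ Wd K k, ∀ y ∈ Wd K k, U.Adj x y → Dy.Adj (g x) (g y))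

lemma Wd_concat {K : ℤ} {k : ℕ} {x : List ℤ} {a : ℤ} (h : x ++ [a] ∈ Wd K (k + 1)) :
    x ∈ Wd K k ∧ -K ≤ a ∧ a ≤ K := by
  obtain ⟨h1, h2⟩ := h
  simp only [List.length_append, List.length_singleton] at h1
  refine ⟨⟨by omega, fun b hb => h2 b (by simp [hb])⟩, h2 a (by simp)⟩

theorem embed_words (K : ℤ) (k : ℕ) : ∃ M : ℕ, ∀ (n : ℕ) (S : Set ℕ) (f : ℕ → List ℤ),
    Cfg n S f → ∀ m p, M ≤ m → p ∉ S → 2 ^ m ∣ p → p + 2 ^ m ≤ 2 ^ n →
    ∃ g : List ℤ → ℕ, GP n S K k p m g := by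
  induction k with
  | zero =>
    refine ⟨0, fun n S f C m p _ hp hd hle => ⟨fun _ => p, rfl, ?_, ?_, ?_⟩⟩
    · intro w hw
      have : 0 < 2 ^ m := by positivity
      refine ⟨le_rfl, ?_, hp⟩
      change p < p + 2 ^ m
      omega
    · intro x hx y hy _
      rw [List.eq_nil_of_length_eq_zero (Nat.le_zero.mp hx.1),
        List.eq_nil_of_length_eq_zero (Nat.le_zero.mp hy.1)]
    · intro x hx y hy h
      rw [List.eq_nil_of_length_eq_zero (Nat.le_zero.mp hx.1),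
        List.eq_nil_of_length_eq_zero (Nat.le_zero.mp hy.1)] at h
      exact absurd rfl h.ne
  | succ k ih =>
    obtain ⟨M, hM⟩ := ih
    refine ⟨M + 2 + 3 * (2 * K + 1).toNat, fun n S f C m p hm hp hd hle => ?_⟩
    obtain ⟨s, hs1, hs2, hs3⟩ := run C (L := (2 * K + 1).toNat) (B := M + 2) hp hd hle (by omega) hm
    have hG : ∀ i, ∃ g : List ℤ → ℕ, s ≤ i → i < s + (2 * K + 1).toNat →
        GP n S K k (p + 2 ^ i) (i - 1) g := by
      intro i
      by_cases hi : s ≤ i ∧ i < s + (2 * K + 1).toNat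
      · have hpw : 2 ^ (i + 1) ≤ 2 ^ m := Nat.pow_le_pow_right (by norm_num) (by omega)
        have e1 : 2 ^ (i + 1) = 2 ^ i + 2 ^ i := by ring
        have e2 : 2 ^ (i - 1) ≤ 2 ^ i := Nat.pow_le_pow_right (by norm_num) (by omega)
        obtain ⟨g, hg⟩ := hM n S f C (i - 1) (p + 2 ^ i) (by omega) (hs3 i hi.1 hi.2)
          (dvd_add ((pow_dvd_pow 2 (by omega)).trans hd) (pow_dvd_pow 2 (by omega))) (by omega)
        exact ⟨g, fun _ _ => hg⟩
      · exact ⟨fun _ => 0, fun h1 h2 => absurd ⟨h1, h2⟩ hi⟩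
    choose G hG using hG
    have hidx : ∀ a : ℤ, -K ≤ a → a ≤ K → s ≤ s + (a + K).toNat ∧
        s + (a + K).toNat < s + (2 * K + 1).toNat := by
      intro a h1 h2; omega
    obtain ⟨g, hg0, hg1⟩ : ∃ g : List ℤ → ℕ, g [] = p ∧
        ∀ x a, g (x ++ [a]) = G (s + (a + K).toNat) x := by
      refine ⟨fun u => match u.reverse with
        | [] => p
        | a :: t => G (s + (a + K).toNat) t.reverse, by simp, ?_⟩
      intro x a
      simp
    -- bounds for the blocks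
    have hblock : ∀ a : ℤ, -K ≤ a → a ≤ K → ∀ x ∈ Wd K k,
        p + 2 ^ (s + (a + K).toNat) ≤ g (x ++ [a]) ∧
        g (x ++ [a]) < p + 2 ^ (s + (a + K).toNat + 1) ∧ g (x ++ [a]) ∉ S := by
      intro a h1 h2 x hx
      obtain ⟨i1, i2⟩ := hidx a h1 h2
      obtain ⟨q0, q1, q2, q3⟩ := hG _ i1 i2
      rw [hg1]
      obtain ⟨b1, b2, b3⟩ := q1 x hx
      have e1 : 2 ^ (s + (a + K).toNat + 1) = 2 ^ (s + (a + K).toNat) + 2 ^ (s + (a + K).toNat) := by
        ring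
      have e2 : 2 ^ (s + (a + K).toNat - 1) ≤ 2 ^ (s + (a + K).toNat) :=
        Nat.pow_le_pow_right (by norm_num) (by omega)
      exact ⟨b1, by omega, b3⟩
    refine ⟨g, hg0, ?_, ?_, ?_⟩
    · intro w hw
      rcases List.eq_nil_or_concat' w with rfl | ⟨x, a, rfl⟩
      · rw [hg0]
        have : 0 < 2 ^ m := by positivity
        exact ⟨le_rfl, by omega, hp⟩
      · obtain ⟨hx, h1, h2⟩ := Wd_concat hw
        obtain ⟨b1, b2, b3⟩ := hblock a h1 h2 x hx
        have : 2 ^ (s + (a + K).toNat + 1) ≤ 2 ^ m :=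
          Nat.pow_le_pow_right (by norm_num) (by have := hidx a h1 h2; omega)
        exact ⟨by omega, by omega, b3⟩
    · have hlt : ∀ a b : ℤ, -K ≤ a → a ≤ K → -K ≤ b → b ≤ K → ∀ x ∈ Wd K k, ∀ y ∈ Wd K k,
          a < b → g (x ++ [a]) < g (y ++ [b]) := by
        intro a b ha1 ha2 hb1 hb2 x hx y hy hab
        obtain ⟨b1, b2, -⟩ := hblock a ha1 ha2 x hx
        obtain ⟨c1, c2, -⟩ := hblock b hb1 hb2 y hy
        have : 2 ^ (s + (a + K).toNat + 1) ≤ 2 ^ (s + (b + K).toNat) :=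
          Nat.pow_le_pow_right (by norm_num) (by omega)
        omega
      intro w hw w' hw' hww
      rcases List.eq_nil_or_concat' w with rfl | ⟨x, a, rfl⟩ <;>
        rcases List.eq_nil_or_concat' w' with rfl | ⟨y, b, rfl⟩
      · rfl
      · exfalso
        obtain ⟨hx, h1, h2⟩ := Wd_concat hw'
        obtain ⟨b1, b2, b3⟩ := hblock b h1 h2 y hx
        have : 0 < 2 ^ (s + (b + K).toNat) := by positivity
        rw [hg0] at hww
        omega
      · exfalso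
        obtain ⟨hx, h1, h2⟩ := Wd_concat hw
        obtain ⟨b1, b2, b3⟩ := hblock a h1 h2 x hx
        have : 0 < 2 ^ (s + (a + K).toNat) := by positivity
        rw [hg0] at hww
        omega
      · obtain ⟨hx, ha1, ha2⟩ := Wd_concat hw
        obtain ⟨hy, hb1, hb2⟩ := Wd_concat hw'
        rcases lt_trichotomy a b with hab | hab | hab
        · exact absurd hww (hlt a b ha1 ha2 hb1 hb2 x hx y hy hab).ne
        · subst hab
          obtain ⟨i1, i2⟩ := hidx a ha1 ha2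
          obtain ⟨q0, q1, q2, q3⟩ := hG _ i1 i2
          rw [hg1, hg1] at hww
          rw [q2 x hx y hy hww]
        · exact absurd hww (hlt b a hb1 hb2 ha1 ha2 y hy x hx hab).ne'
    · have hroot : ∀ x a, x ++ [a] ∈ Wd K (k + 1) → U.Adj [] (x ++ [a]) →
          Dy.Adj p (g (x ++ [a])) := by
        intro x a hxa h
        have hx := U_root h
        subst hx
        obtain ⟨hx, ha1, ha2⟩ := Wd_concat hxa
        obtain ⟨i1, i2⟩ := hidx a ha1 ha2
        obtain ⟨q0, q1, q2, q3⟩ := hG _ i1 i2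
        rw [hg1, q0]
        exact dy1 ((pow_dvd_pow 2 (by omega)).trans hd)
      intro w hw w' hw' hww
      rcases List.eq_nil_or_concat' w with rfl | ⟨x, a, rfl⟩ <;>
        rcases List.eq_nil_or_concat' w' with rfl | ⟨y, b, rfl⟩
      · exact absurd rfl hww.ne
      · rw [hg0]; exact hroot y b hw' hww
      · rw [hg0]; exact (hroot x a hw hww.symm).symm
      · obtain ⟨hx, ha1, ha2⟩ := Wd_concat hw
        obtain ⟨hy, hb1, hb2⟩ := Wd_concat hw'
        obtain ⟨i1, i2⟩ := hidx a ha1 ha2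
        obtain ⟨q0, q1, q2, q3⟩ := hG _ i1 i2
        obtain ⟨j1, j2⟩ := hidx b hb1 hb2
        obtain ⟨p0, p1, p2, p3⟩ := hG _ j1 j2
        rcases U_last hww with ⟨rfl, h⟩ | ⟨rfl, rfl, h⟩
        · rw [hg1, hg1]
          exact q3 x hx y hy h
        · rw [hg1, hg1, q0, p0]
          have hsib : ∀ i, i ≤ m → Dy.Adj (p + 2 ^ i) (p + 2 ^ (i + 1)) := by
            intro i hi
            exact dyq (k := i) rfl (dvd_add ((pow_dvd_pow 2 hi).trans hd) dvd_rfl) (by ring)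
          rcases h with rfl | rfl
          · have e : s + (a + 1 + K).toNat = s + (a + K).toNat + 1 := by omega
            rw [e]; exact hsib _ (by omega)
          · have e : s + (b + 1 + K).toNat = s + (b + K).toNat + 1 := by omega
            rw [e]; exact (hsib _ (by omega)).symm

lemma edgeless_mem {P : GProp} (hP : InLa P) (h1 : P Unit ⊥) (V : Type) [Finite V] : P V ⊥ := by
  obtain ⟨n, ⟨e⟩⟩ := Finite.exists_equiv_fin V
  refine hP.of_iso (G := copies (⊥ : SimpleGraph Unit) n) (fun v => (e v, ())) ?_ ?_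
    (copies_mem hP h1 n)
  · intro a b hab
    simp only [Prod.mk.injEq, and_true] at hab
    exact e.injective hab
  · intro a b hab
    exact absurd hab (by simp)

lemma sub_edgeless {P : GProp} (hP : InLa P) (h : ¬ P (Fin 2) ⊤) : Incl P Edgeless := by
  intro V _ G hG
  change G = ⊥
  ext a b
  simp only [SimpleGraph.bot_adj, iff_false]
  intro hab
  apply h
  refine hP.of_iso (G := G) ![a, b] ?_ ?_ hG
  · intro i j hij
    have := hab.ne
    have := hab.ne'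
    fin_cases i <;> fin_cases j <;> simp_all
  · intro i j hij
    fin_cases i <;> fin_cases j
    · exact absurd rfl hij.ne
    · exact hab
    · exact hab.symm
    · exact absurd rfl hij.ne

theorem fan_incl {P₁ P₂ : GProp} (h1 : InLa P₁) (h2 : InLa P₂) (hU : P₁ Unit ⊥)
    (hP1 : Incl P₁ Edgeless) (hT : Incl Outerplanar (AProd P₁ P₂))
    (hI : Incl (AProd P₁ P₂) (AProd Edgeless FanSub)) : Incl FanSub P₂ := by
  classical
  intro V _ G hG
  obtain ⟨f0, hf0, hadj0⟩ := hG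
  have := Fintype.ofFinite V
  obtain ⟨K, k, hKk⟩ : ∃ (K : ℤ) (k : ℕ), ∀ v, f0 v ∈ Wd K k := by
    refine ⟨((Finset.univ.sup fun v => ((f0 v).map Int.natAbs).sum : ℕ) : ℤ),
      Finset.univ.sup fun v => (f0 v).length, fun v => ⟨?_, ?_⟩⟩
    · exact Finset.le_sup (f := fun v => (f0 v).length) (Finset.mem_univ v)
    · intro a ha
      have h3 : a.natAbs ≤ ((f0 v).map Int.natAbs).sum :=
        List.single_le_sum (by simp) _ (List.mem_map_of_mem ha)
      have h4 : ((f0 v).map Int.natAbs).sum ≤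
          (Finset.univ.sup fun v => ((f0 v).map Int.natAbs).sum) :=
        Finset.le_sup (f := fun v => ((f0 v).map Int.natAbs).sum) (Finset.mem_univ v)
      omega
  obtain ⟨M, hM⟩ := embed_words K k
  set n := M + 1 with hn
  let Dn : SimpleGraph (Fin (2 ^ n + 1)) := Dy.comap Fin.val
  have hDn : ∀ a b, Dn.Adj a b ↔ Dy.Adj a.val b.val := fun a b => Iff.rfl
  have hout : Outerplanar _ Dn := ⟨Fin.val, Fin.val_injective, fun a b c d hab hcd =>
    dy_noncross hab hcd⟩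
  obtain ⟨S0, hS1, hS2, hS3⟩ := hT _ _ hout
  let S : Set ℕ := {v | ∃ h : v < 2 ^ n + 1, (⟨v, h⟩ : Fin (2 ^ n + 1)) ∈ S0}
  have hSiff : ∀ (v : Fin (2 ^ n + 1)), v.val ∈ S ↔ v ∈ S0 := by
    intro v
    exact ⟨fun ⟨h, h'⟩ => h', fun h => ⟨v.2, h⟩⟩
  have hind : ∀ a b, a ≤ 2 ^ n → b ≤ 2 ^ n → Dy.Adj a b → ¬ (a ∈ S ∧ b ∈ S) := by
    rintro a b ha hb hab ⟨⟨h3, h3'⟩, ⟨h4, h4'⟩⟩
    have e : Dn.induce S0 = ⊥ := hP1 _ _ hS1
    have h5 : (Dn.induce S0).Adj ⟨_, h3'⟩ ⟨_, h4'⟩ := hab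
    rw [e] at h5
    exact h5
  have hacyc : (Xg n S).IsAcyclic := by
    apply acyclic_lift (G := cross Dn S0) Fin.val Fin.val_injective hS3
    intro x y hxy
    refine ⟨⟨x, Nat.lt_succ_of_le hxy.1⟩, ⟨y, Nat.lt_succ_of_le hxy.2.1⟩, rfl, rfl, hxy.2.2.1, ?_⟩
    rw [← hSiff, ← hSiff]
    exact hxy.2.2.2
  -- the graph of triangle vertices
  let H : SimpleGraph {v : Fin (2 ^ n + 1) // InT n S v.val} := Dn.comap Subtype.val
  have hHadj : ∀ a b, H.Adj a b ↔ Dy.Adj a.1.val b.1.val := fun a b => Iff.rfl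
  have hHP : P₂ _ H := by
    refine h2.of_iso (G := Dn.induce S0ᶜ)
      (fun v => ⟨v.1, fun h => v.2.2.1 ((hSiff v.1).mpr h)⟩) ?_ ?_ hS2
    · intro a b hab
      have h3 : a.1 = b.1 := congrArg (fun v => v.1) hab
      exact Subtype.ext h3
    · intro a b hab
      exact hab
  have htri : ∀ v, ∃ a b, H.Adj v a ∧ H.Adj v b ∧ H.Adj a b := by
    rintro ⟨v, hv⟩
    obtain ⟨hv1, hv2, a, b, ha, hb, haS, hbS, hva, hvb, hab⟩ := hv
    obtain ⟨t1, t2, t3⟩ := inT_of_tri hv1 ha hb hv2 haS hbS hva hvb hab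
    exact ⟨⟨⟨a, Nat.lt_succ_of_le ha⟩, t2⟩, ⟨⟨b, Nat.lt_succ_of_le hb⟩, t3⟩, hva, hvb, hab⟩
  obtain ⟨A, -, -, f1, hf1, hadj1⟩ := gadget_core H ⊥ htri
    (fun m => hI _ _ (gad_mem h1 h2 (edgeless_mem h1 hU _) hHP m))
  let f : ℕ → List ℤ := fun v => if h : InT n S v then
    f1 ⟨⟨v, Nat.lt_succ_of_le h.1⟩, h⟩ else []
  have hf : ∀ v (h : InT n S v), f v = f1 ⟨⟨v, Nat.lt_succ_of_le h.1⟩, h⟩ := by
    intro v h
    simp only [f, h, dif_pos]
  have C : Cfg n S f := by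
    refine ⟨hind, hacyc, ?_, ?_⟩
    · intro a b ha hb hab
      rw [hf a ha, hf b hb]
      exact hadj1 _ _ hab
    · intro a b ha hb hab
      rw [hf a ha, hf b hb] at hab
      have := congrArg (fun v => v.1.val) (hf1 hab)
      exact this
  have h2n : 2 ^ n = 2 ^ M + 2 ^ M := by rw [hn]; ring
  have h2M : 0 < 2 ^ M := by positivity
  obtain ⟨p, hpS, hpd, hple⟩ : ∃ p, p ∉ S ∧ 2 ^ M ∣ p ∧ p + 2 ^ M ≤ 2 ^ n := by
    by_cases h0 : 0 ∈ S
    · refine ⟨2 ^ M, ?_, dvd_rfl, by omega⟩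
      intro h
      have h3 := hind 0 (0 + 2 ^ M) (by omega) (by omega) (dy1 (dvd_zero _))
      apply h3
      exact ⟨h0, by rw [zero_add]; exact h⟩
    · exact ⟨0, h0, dvd_zero _, by omega⟩
  obtain ⟨g, hg0, hg1, hg2, hg3⟩ := hM n S f C M p le_rfl hpS hpd hple
  have hlt : ∀ v, g (f0 v) < 2 ^ n + 1 := by
    intro v
    have := hg1 _ (hKk v)
    omega
  refine h2.of_iso (G := Dn.induce S0ᶜ) (fun v => ⟨⟨g (f0 v), hlt v⟩, ?_⟩) ?_ ?_ hS2
  · intro h
    exact (hg1 _ (hKk v)).2.2 ⟨hlt v, h⟩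
  · intro a b hab
    have h3 : g (f0 a) = g (f0 b) := by
      have := congrArg (fun v => v.1.val) hab
      exact this
    exact hf0 (hg2 _ (hKk a) _ (hKk b) h3)
  · intro a b hab
    exact hg3 _ (hKk a) _ (hKk b) (hadj0 _ _ hab)

lemma prod_mono {P₁ P₂ Q₁ Q₂ : GProp} (h1 : Incl P₁ Q₁) (h2 : Incl P₂ Q₂) :
    Incl (AProd P₁ P₂) (AProd Q₁ Q₂) := by
  rintro V _ G ⟨S, a, b, c⟩
  exact ⟨S, h1 _ _ a, h2 _ _ b, c⟩

theorem main : IsMinimalBound Outerplanar (AProd Edgeless FanSub) := by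
  refine ⟨⟨inLa_prod inLa_edgeless inLa_fanSub, Edgeless, FanSub, inLa_edgeless, nontriv_edgeless,
    inLa_fanSub, nontriv_fanSub, rfl⟩, outerplanar_incl, ?_⟩
  rintro R' ⟨hR', P₁, P₂, h1, n1, h2, n2, rfl⟩ hT hI
  have hsub : Incl (AProd Edgeless FanSub) (AProd P₁ P₂) := by
    by_cases hK1 : P₁ (Fin 2) ⊤
    · by_cases hK2 : P₂ (Fin 2) ⊤
      · exact (not_both_K2 h1 h2 hK1 hK2 hT hI).elim
      · have hT' : Incl Outerplanar (AProd P₂ P₁) :=
          fun V _ G hG => prod_symm h1 _ _ (hT _ _ hG)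
        have hI' : Incl (AProd P₂ P₁) (AProd Edgeless FanSub) :=
          fun V _ G hG => hI _ _ (prod_symm h2 _ _ hG)
        have hF := fan_incl h2 h1 n2.1 (sub_edgeless h2 hK2) hT' hI'
        have hE : Incl Edgeless P₂ := by
          intro V _ G hG
          have e : G = ⊥ := hG
          rw [e]; exact edgeless_mem h2 n2.1 V
        intro V _ G hG
        exact prod_symm h2 _ _ (prod_mono hE hF _ _ hG)
    · have hF := fan_incl h1 h2 n1.1 (sub_edgeless h1 hK1) hT hI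
      have hE : Incl Edgeless P₁ := by
        intro V _ G hG
        have e : G = ⊥ := hG
        rw [e]; exact edgeless_mem h1 n1.1 V
      exact prod_mono hE hF
  funext V _ G
  exact propext ⟨hI V G, hsub V G⟩

end Pool.Agent.R204.OP
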