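import Pool.Agent.R204.OP.La

namespace Pool.Agent.R204.OP

/-! Every outerplanar graph is in the product. -/

/-- `B` is obtained from `A` by adding vertices one at a time, each with at most one neighbour in
the current set. -/
inductive Ext {V : Type*} (X : V → V → Prop) (A : Set V) : Set V → Prop
  | refl : Ext X A A
  | add {B : Set V} (v : V) : Ext X A B → (∀ a ∈ B, ∀ b ∈ B, X v a → X v b → a = b) →
      Ext X A (insert v B)

lemma Ext.trans {V : Type*} {X : V → V → Prop} {A B C : Set V} (h1 : Ext X A B) (h2 : Ext X B C) :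
    Ext X A C := by
  induction h2 with
  | refl => exact h1
  | add v _ hv ih => exact Ext.add v ih hv

lemma Ext.sub {V : Type*} {X : V → V → Prop} {A B : Set V} (h1 : Ext X A B) : A ⊆ B := by
  induction h1 with
  | refl => exact le_rfl
  | add v _ hv ih => exact ih.trans (Set.subset_insert _ _)

lemma Ext.union {V : Type*} {X : V → V → Prop} {A B : Set V} (C : Set V) (h1 : Ext X A B)
    (hC : ∀ b ∈ B, b ∉ A → ∀ c ∈ C, c ∉ A → ¬ X b c) : Ext X (A ∪ C) (B ∪ C) := by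
  induction h1 with
  | refl => exact Ext.refl
  | @add B v hB hv ih =>
    have ih' := ih (fun b hb => hC b (Set.mem_insert_of_mem _ hb))
    have e : insert v B ∪ C = insert v (B ∪ C) := by rw [Set.insert_union]
    rw [e]
    by_cases hvA : v ∈ A
    · have : insert v (B ∪ C) = B ∪ C := Set.insert_eq_of_mem (Or.inl (hB.sub hvA))
      rw [this]; exact ih'
    · apply Ext.add v ih'
      intro a ha b hb hva hvb
      have key : ∀ a ∈ B ∪ C, X v a → a ∈ B := by
        intro a ha hva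
        rcases ha with ha | ha
        · exact ha
        · by_contra haB
          exact hC v (Set.mem_insert _ _) hvA a ha (fun h => haB (hB.sub h)) hva
      exact hv a (key a ha hva) b (key b hb hvb) hva hvb

lemma Ext.congr {V : Type*} {X Y : V → V → Prop} {A B : Set V} (h1 : Ext X A B)
    (h : ∀ a ∈ B, ∀ b ∈ B, Y a b → X a b) : Ext Y A B := by
  induction h1 with
  | refl => exact Ext.refl
  | @add B v hB hv ih =>
    refine Ext.add v (ih (fun a ha b hb => h a (Set.mem_insert_of_mem _ ha) b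
      (Set.mem_insert_of_mem _ hb))) ?_
    intro a ha b hb hva hvb
    exact hv a ha b hb (h v (Set.mem_insert _ _) a (Set.mem_insert_of_mem _ ha) hva)
      (h v (Set.mem_insert _ _) b (Set.mem_insert_of_mem _ hb) hvb)

lemma Ext.acyclic {V : Type*} {X : SimpleGraph V} {B : Set V} (h : Ext X.Adj ∅ B)
    {u : V} (c : X.Walk u u) (hc : c.IsCycle) : ¬ ∀ x ∈ c.support, x ∈ B := by
  induction h with
  | refl =>
    intro h
    exact h u c.start_mem_support
  | @add B v hB hv ih =>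
    intro h
    by_cases hvs : v ∈ c.support
    · classical
      have hc' := hc.rotate hvs
      have hne := hc'.snd_ne_penultimate
      apply hne
      have hnil := hc'.not_nil
      have a1 : X.Adj v (c.rotate v hvs).snd := (c.rotate v hvs).adj_snd hnil
      have a2 : X.Adj v (c.rotate v hvs).penultimate :=
        ((c.rotate v hvs).adj_penultimate hnil).symm
      have hmem : ∀ x ∈ (c.rotate v hvs).support, x ≠ v → x ∈ B := by
        intro x hx hxv
        have hx' : x ∈ c.support := (SimpleGraph.Walk.mem_support_rotate_iff c v hvs).mp hx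
        rcases h x hx' with h | h
        · exact absurd h hxv
        · exact h
      apply hv _ (hmem _ ?_ a1.ne') _ (hmem _ ?_ a2.ne') a1 a2
      · exact SimpleGraph.Walk.getVert_mem_support _ _
      · exact SimpleGraph.Walk.getVert_mem_support _ _
    · apply ih
      intro x hx
      rcases h x hx with h | h
      · exact absurd (h ▸ hx) hvs
      · exact h

/-- Both ends of the edge are not in `S`, and if both are outside then the words are adjacent. -/
def EOK (S : Set ℕ) (f : ℕ → List ℤ) (u v : ℕ) : Prop :=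
  ¬ (u ∈ S ∧ v ∈ S) ∧ (u ∉ S → v ∉ S → U.Adj (f u) (f v))

lemma EOK.symm {S : Set ℕ} {f : ℕ → List ℤ} {u v : ℕ} (h : EOK S f u v) : EOK S f v u :=
  ⟨fun h' => h.1 ⟨h'.2, h'.1⟩, fun h1 h2 => (h.2 h2 h1).symm⟩

def XA (G : SimpleGraph ℕ) (S : Set ℕ) (u v : ℕ) : Prop := G.Adj u v ∧ (u ∈ S ↔ v ∉ S)

structure Good (G : SimpleGraph ℕ) (S : Set ℕ) (f : ℕ → List ℤ) (I : Set ℕ) (x y : ℕ)
    (W : Set (List ℤ)) (A : Set ℕ) : Prop where
  word : ∀ v ∈ I, v ∉ S → f v ∈ W
  inj : ∀ u ∈ I, ∀ v ∈ I, u ∉ S → v ∉ S → f u = f v → u = v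
  edge : ∀ u ∈ insert x (insert y I), ∀ v ∈ insert x (insert y I), G.Adj u v → EOK S f u v
  ext : Ext (XA G S) A (insert x (insert y I))

lemma Good.transfer {G : SimpleGraph ℕ} {S S' : Set ℕ} {f f' : ℕ → List ℤ} {I : Set ℕ} {x y : ℕ}
    {W : Set (List ℤ)} {A : Set ℕ} (h : Good G S f I x y W A)
    (hS : ∀ v ∈ insert x (insert y I), (v ∈ S' ↔ v ∈ S) ∧ f' v = f v) :
    Good G S' f' I x y W A where
  word := by
    intro v hv hvS
    have := hS v (by simp [hv])
    rw [this.2]; exact h.word v hv (fun h' => hvS (this.1.mpr h'))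
  inj := by
    intro u hu v hv huS hvS huv
    have h1 := hS u (by simp [hu])
    have h2 := hS v (by simp [hv])
    rw [h1.2, h2.2] at huv
    exact h.inj u hu v hv (fun h' => huS (h1.1.mpr h')) (fun h' => hvS (h2.1.mpr h')) huv
  edge := by
    intro u hu v hv huv
    have h1 := hS u hu
    have h2 := hS v hv
    have h3 := h.edge u hu v hv huv
    unfold EOK at h3 ⊢
    rw [h1.1, h2.1, h1.2, h2.2]; exact h3
  ext := by
    apply h.ext.congr
    intro a ha b hb hab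
    have h1 := hS a ha
    have h2 := hS b hb
    unfold XA at hab ⊢
    rw [h1.1, h2.1] at hab; exact hab

lemma Good.swap {G : SimpleGraph ℕ} {S : Set ℕ} {f : ℕ → List ℤ} {I : Set ℕ} {x y : ℕ}
    {W : Set (List ℤ)} {A : Set ℕ} (h : Good G S f I x y W A) : Good G S f I y x W A := by
  have e : insert x (insert y I) = insert y (insert x I) := Set.insert_comm _ _ _
  exact ⟨h.word, h.inj, by rw [← e]; exact h.edge, by rw [← e]; exact h.ext⟩

/-- the words extending `w` whose letter after `w` is beyond `j` in direction `σ` -/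
def D (w : List ℤ) (j σ : ℤ) : Set (List ℤ) := {u | ∃ s n, u = s ++ n :: w ∧ j * σ < n * σ}

lemma app_key {s s' w : List ℤ} {n n' : ℤ} (h : s ++ n :: w = s' ++ n' :: w) : n = n' := by
  have h1 : (s ++ [n]) ++ w = (s' ++ [n']) ++ w := by simpa using h
  have h2 := List.append_cancel_right h1
  have := (List.append_inj' h2 rfl).2
  simpa using this

lemma D_child {m i j σ τ : ℤ} {w : List ℤ} (h : i * σ < m * σ) : D (m :: w) j τ ⊆ D w i σ := by
  rintro u ⟨s, n, rfl, hn⟩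
  exact ⟨s ++ [n], m, by simp, h⟩

lemma D_mono {i j σ : ℤ} {w : List ℤ} (h : i * σ ≤ j * σ) : D w j σ ⊆ D w i σ := by
  rintro u ⟨s, n, rfl, hn⟩
  exact ⟨s, n, rfl, lt_of_le_of_lt h hn⟩

lemma D_self {m i σ : ℤ} {w : List ℤ} (h : i * σ < m * σ) : m :: w ∈ D w i σ := ⟨[], m, rfl, h⟩

lemma D_dis1 {u w : List ℤ} {m i τ j σ : ℤ} (h1 : u ∈ D (m :: w) i τ) (h2 : u ∈ D w j σ) :
    j * σ < m * σ := by
  obtain ⟨s, n, rfl, hn⟩ := h1
  obtain ⟨s', n', e, hn'⟩ := h2
  have : (s ++ [n]) ++ m :: w = s' ++ n' :: w := by simpa using e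
  rw [app_key this]; exact hn'

lemma D_dis2 {u w : List ℤ} {m m' i i' τ τ' : ℤ} (h1 : u ∈ D (m :: w) i τ)
    (h2 : u ∈ D (m' :: w) i' τ') : m = m' := by
  obtain ⟨s, n, rfl, hn⟩ := h1
  obtain ⟨s', n', e, hn'⟩ := h2
  have : (s ++ [n]) ++ m :: w = (s' ++ [n']) ++ m' :: w := by simpa using e
  exact app_key this

lemma D_dis3 {u w : List ℤ} (h1 : u ∈ D w 0 1) (h2 : u ∈ D w 0 (-1)) : False := by
  obtain ⟨s, n, rfl, hn⟩ := h1
  obtain ⟨s', n', e, hn'⟩ := h2
  have := app_key e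
  subst this
  omega

lemma D_dis4 {w : List ℤ} {m m' i τ : ℤ} (h : m :: w ∈ D (m' :: w) i τ) : False := by
  obtain ⟨s', n', e, hn'⟩ := h
  have := congrArg List.length e
  simp at this
  omega

lemma D_dis5 {w : List ℤ} {m j σ : ℤ} (h : m :: w ∈ D w j σ) : j * σ < m * σ := by
  obtain ⟨s', n', e, hn'⟩ := h
  have : [] ++ m :: w = s' ++ n' :: w := by simpa using e
  rw [app_key this]; exact hn'

structure Node (G : SimpleGraph ℕ) (x y r : ℕ) (I₁ I₂ : Set ℕ) : Prop where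
  xy : x ≠ y
  xr : x ≠ r
  yr : y ≠ r
  x1 : x ∉ I₁
  r1 : r ∉ I₁
  y1 : y ∉ I₁
  x2 : x ∉ I₂
  r2 : r ∉ I₂
  y2 : y ∉ I₂
  dis : ∀ v ∈ I₁, v ∉ I₂
  sep : ∀ u ∈ insert x I₁, ∀ v ∈ insert y I₂, G.Adj u v → u = x ∧ v = y

lemma Node.symm {G : SimpleGraph ℕ} {x y r : ℕ} {I₁ I₂ : Set ℕ} (N : Node G x y r I₁ I₂) :
    Node G y x r I₂ I₁ :=
  ⟨N.xy.symm, N.yr, N.xr, N.y2, N.r2, N.x2, N.y1, N.r1, N.x1, fun v h1 h2 => N.dis v h2 h1,
    fun u hu v hv huv => (N.sep v hv u hu huv.symm).symm⟩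

lemma glue {G : SimpleGraph ℕ} {x y r : ℕ} {I₁ I₂ : Set ℕ} (N : Node G x y r I₁ I₂)
    {S : Set ℕ} {f : ℕ → List ℤ} {W W₁ W₂ : Set (List ℤ)} {A A₁ A₂ : Set ℕ}
    (g1 : Good G S f I₁ x r W₁ A₁) (g2 : Good G S f I₂ y r W₂ A₂) (hW1 : W₁ ⊆ W) (hW2 : W₂ ⊆ W)
    (hdis : ∀ u ∈ W₁, u ∉ W₂) (hr : r ∉ S → f r ∈ W ∧ f r ∉ W₁ ∧ f r ∉ W₂) (hxy : EOK S f x y)
    (hext : Ext (XA G S) A (insert x (insert y (I₁ ∪ insert r I₂)))) :
    Good G S f (I₁ ∪ insert r I₂) x y W A where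
  word := by
    rintro v (hv | rfl | hv) hvS
    · exact hW1 (g1.word v hv hvS)
    · exact (hr hvS).1
    · exact hW2 (g2.word v hv hvS)
  inj := by
    rintro u (hu | rfl | hu) v (hv | rfl | hv) huS hvS huv
    · exact g1.inj u hu v hv huS hvS huv
    · exact absurd (huv ▸ g1.word u hu huS) (hr hvS).2.1
    · exact absurd (huv ▸ g2.word v hv hvS) (hdis _ (g1.word u hu huS))
    · exact absurd (huv ▸ g1.word v hv hvS) (hr huS).2.1
    · rfl
    · exact absurd (huv ▸ g2.word v hv hvS) (hr huS).2.2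
    · exact absurd (huv ▸ g2.word u hu huS) (hdis _ (g1.word v hv hvS))
    · exact absurd (huv ▸ g2.word u hu huS) (hr hvS).2.2
    · exact g2.inj u hu v hv huS hvS huv
  edge := by
    have h1 : ∀ u ∈ insert x (insert r I₁), ∀ v ∈ insert x (insert r I₁), G.Adj u v → EOK S f u v :=
      g1.edge
    have h2 : ∀ u ∈ insert y (insert r I₂), ∀ v ∈ insert y (insert r I₂), G.Adj u v → EOK S f u v :=
      g2.edge
    have h3 := N.sep
    intro u hu v hv huv
    have key : ∀ u, u ∈ insert x (insert y (I₁ ∪ insert r I₂)) →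
        u ∈ insert x I₁ ∨ u = r ∨ u ∈ insert y I₂ := by
      intro u hu
      simp only [Set.mem_insert_iff, Set.mem_union] at hu ⊢
      tauto
    have c1 : ∀ u, u ∈ insert x I₁ → u ∈ insert x (insert r I₁) := by
      intro u hu; simp only [Set.mem_insert_iff] at hu ⊢; tauto
    have c2 : ∀ u, u ∈ insert y I₂ → u ∈ insert y (insert r I₂) := by
      intro u hu; simp only [Set.mem_insert_iff] at hu ⊢; tauto
    rcases key u hu with hu | hu | hu <;> rcases key v hv with hv | hv | hv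
    · exact h1 u (c1 u hu) v (c1 v hv) huv
    · exact h1 u (c1 u hu) v (by simp [hv]) huv
    · obtain ⟨e1, e2⟩ := h3 u hu v hv huv
      rw [e1, e2]; exact hxy
    · exact h1 u (by simp [hu]) v (c1 v hv) huv
    · rw [hu, hv] at huv; exact absurd rfl huv.ne
    · exact h2 u (by simp [hu]) v (c2 v hv) huv
    · obtain ⟨e1, e2⟩ := h3 v hv u hu huv.symm
      rw [e1, e2]; exact hxy.symm
    · exact h2 u (c2 u hu) v (by simp [hv]) huv
    · exact h2 u (c2 u hu) v (c2 v hv) huv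
  ext := hext

def Agr (I : Set ℕ) (S : Set ℕ) (f : ℕ → List ℤ) (S' : Set ℕ) (f' : ℕ → List ℤ) : Prop :=
  ∀ v, v ∉ I → (v ∈ S' ↔ v ∈ S) ∧ f' v = f v

def CUT (G : SimpleGraph ℕ) (x y : ℕ) (I : Set ℕ) : Prop :=
  ∀ (S : Set ℕ) (f : ℕ → List ℤ) (σ : ℤ), x ∈ S → y ∉ S → (σ = 1 ∨ σ = -1) →
    ∃ S' f', Agr I S f S' f' ∧ Good G S' f' I x y (D (f y) 0 σ) {x, y}

def FE (G : SimpleGraph ℕ) (x y : ℕ) (I : Set ℕ) : Prop :=
  ∀ (S : Set ℕ) (f : ℕ → List ℤ) (σ τ j : ℤ), x ∉ S → y ∉ S → (σ = 1 ∨ σ = -1) →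
    (τ = 1 ∨ τ = -1) → f y = j :: f x → 0 < j * σ →
    ∃ S' f', Agr I S f S' f' ∧ Good G S' f' I x y (D (f x) j σ ∪ D (f y) 0 τ) {x, y}

def RE (G : SimpleGraph ℕ) (x y : ℕ) (I : Set ℕ) : Prop :=
  ∀ (S : Set ℕ) (f : ℕ → List ℤ) (σ τ n m : ℤ) (w : List ℤ), x ∉ S → y ∉ S →
    (σ = 1 ∨ σ = -1) → (τ = 1 ∨ τ = -1) → f x = n :: w → f y = m :: w → (m = n + 1 ∨ n = m + 1) →
    ∃ S' f', Agr I S f S' f' ∧ Good G S' f' I x y (D (f x) 0 σ ∪ D (f y) 0 τ) {x}

end Pool.Agent.R204.OP
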